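import Mathlib
import Pool.Agent.TH41.LP.Stm
import Pool.Agent.TH41.LP.C1

/-!
The Gaussian bound of `YY` on every vertical line `Re s = σ` with `σ ≠ 0` and `σ / D` small.
-/

set_option autoImplicit false

open MeasureTheory Filter Topology

namespace Pool.Agent.Y509.DF

open Pool.Agent.TH41.LP Pool.Agent.TH41.LP.C1f

theorem c1x (he : S_ee) (hpp : S_pp) (hg : S_gam) {K C η : ℝ} (hK : 0 < K)
    (hKη : K * η ≤ 1 / 400) (F : Fam) (hP : Pot η C F) :
    ∃ D0 : ℝ, 0 < D0 ∧ ∀ D : ℝ, D0 ≤ D → ∀ σ : ℝ, σ ≠ 0 → σ / D ≤ 1 / 2 →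
      4 * (σ / D) * K ≤ 1 / 400 → ∀ t : ℝ,
      ‖YY F D K (σ + t * Complex.I)‖ ≤
        101 / 100 * ‖YY F D K σ‖ * Real.exp (-(49 / 100) * t ^ 2 / (K * D)) := by
  obtain ⟨D1, hD1⟩ := eventually_atTop.1 ((prod_small hpp F hK).and (eventually_gt_atTop (0 : ℝ)))
  refine ⟨max D1 1, by positivity, fun D hD => ?_⟩
  obtain ⟨hprod, hD0⟩ := hD1 D ((le_max_left _ _).trans hD)
  have fin : ∀ σ t : ℝ, σ ≠ 0 → σ < D → ∀ w : ℝ, w ≤ 1 / 200 →
      D * (Phi (-(σ / D)) (t / D) - F.B (|σ| / D) (t / D) - F.B ((D - σ) / D) (t / D)) ≤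
        w * t ^ 2 / (K * D) →
      ‖YY F D K (σ + t * Complex.I)‖ ≤
      101 / 100 * ‖YY F D K σ‖ * Real.exp (-(49 / 100) * t ^ 2 / (K * D)) := by
    intro σ t hσ hσ2 w hw hB
    have h1 := YYb he hpp hg F hD0 hK hσ hσ2 t
    have h2 := hprod |σ| (abs_pos.2 hσ) t
    have h3 := hprod (D - σ) (by linarith) t
    refine h1.trans ?_
    have hq : 0 ≤ t ^ 2 / (K * D) := by positivity
    have h4 : Real.exp (-(t ^ 2 / (2 * (K * D))) + D * (Phi (-(σ / D)) (t / D) -
        F.B (|σ| / D) (t / D) - F.B ((D - σ) / D) (t / D))) *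
        ((∏ i, (1 + Real.exp (-(2 * (F.κ i * pp (F.c i * D) |σ| t))))) *
          ∏ i, (1 + Real.exp (-(2 * (F.κ i * pp (F.c i * D) (D - σ) t))))) ≤
        Real.exp (1 / 125) * Real.exp (-(49 / 100) * t ^ 2 / (K * D)) := by
      calc _ ≤ Real.exp (-(t ^ 2 / (2 * (K * D))) + w * t ^ 2 / (K * D)) *
            (Real.exp (1 / 250 + t ^ 2 / (400 * (K * D))) *
              Real.exp (1 / 250 + t ^ 2 / (400 * (K * D)))) := by
            refine mul_le_mul (Real.exp_le_exp.2 (by linarith)) ?_ ?_ (Real.exp_pos _).le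
            · exact mul_le_mul h2 h3 (Finset.prod_nonneg fun i _ => by positivity)
                (Real.exp_pos _).le
            · exact mul_nonneg (Finset.prod_nonneg fun i _ => by positivity)
                (Finset.prod_nonneg fun i _ => by positivity)
        _ ≤ _ := by
            rw [← Real.exp_add, ← Real.exp_add, ← Real.exp_add]
            refine Real.exp_le_exp.2 ?_
            have e1 : t ^ 2 / (2 * (K * D)) = 1 / 2 * (t ^ 2 / (K * D)) := by field_simp
            have e2 : t ^ 2 / (400 * (K * D)) = 1 / 400 * (t ^ 2 / (K * D)) := by field_simp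
            have e3 : w * t ^ 2 / (K * D) = w * (t ^ 2 / (K * D)) := by ring
            have e4 : -(49 / 100) * t ^ 2 / (K * D) = -(49 / 100) * (t ^ 2 / (K * D)) := by ring
            rw [e1, e2, e3, e4]
            nlinarith
    calc ‖YY F D K σ‖ * _ ≤ ‖YY F D K σ‖ *
          (Real.exp (1 / 125) * Real.exp (-(49 / 100) * t ^ 2 / (K * D))) :=
          mul_le_mul_of_nonneg_left h4 (norm_nonneg _)
      _ ≤ ‖YY F D K σ‖ * (101 / 100 * Real.exp (-(49 / 100) * t ^ 2 / (K * D))) := by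
          gcongr
          exact exp_small
      _ = _ := by ring
  intro σ hσ hσ2 hσ3 t
  rcases lt_or_gt_of_ne hσ with hσ0 | hσ0
  · refine fin σ t hσ (by linarith) (1 / 400) (by norm_num) ?_
    have hx : 0 < -σ / D := div_pos (by linarith) hD0
    have h1 := hP.p1 (-σ / D) hx (t / D)
    have e1 : |σ| / D = -σ / D := by rw [abs_of_neg hσ0]
    have e2 : (D - σ) / D = 1 + -σ / D := by field_simp; ring
    have e3 : -(σ / D) = -σ / D := by ring
    rw [e1, e2, e3]
    have h2 := (abs_le.1 h1).1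
    have h3 : D * (Phi (-σ / D) (t / D) - F.B (-σ / D) (t / D) - F.B (1 + -σ / D) (t / D)) ≤
        D * (η * (t / D) ^ 2) := by
      refine mul_le_mul_of_nonneg_left ?_ hD0.le
      linarith
    refine h3.trans ?_
    have e4 : D * (η * (t / D) ^ 2) = (K * η) * (t ^ 2 / (K * D)) := by field_simp
    rw [e4, mul_div_assoc]
    gcongr
  · have hσD : σ < D := by
      have : σ / D ≤ 1 / 2 := hσ2
      rw [div_le_iff₀ hD0] at this
      linarith
    refine fin σ t hσ hσD (1 / 200) le_rfl ?_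
    have hx : 0 < σ / D := div_pos hσ0 hD0
    have h1 := hP.p2 (σ / D) hx hσ2 (t / D)
    have e1 : |σ| / D = σ / D := by rw [abs_of_pos hσ0]
    have e2 : (D - σ) / D = 1 - σ / D := by field_simp
    rw [e1, e2]
    have h3 : D * (Phi (-(σ / D)) (t / D) - F.B (σ / D) (t / D) - F.B (1 - σ / D) (t / D)) ≤
        D * ((η + 4 * (σ / D)) * (t / D) ^ 2) :=
      mul_le_mul_of_nonneg_left h1 hD0.le
    refine h3.trans ?_
    have e4 : D * ((η + 4 * (σ / D)) * (t / D) ^ 2) =
        (K * η + 4 * (σ / D) * K) * (t ^ 2 / (K * D)) := by field_simp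
    have e5 : 1 / 200 * t ^ 2 / (K * D) = 1 / 200 * (t ^ 2 / (K * D)) := by ring
    rw [e4, e5]
    have hq : 0 ≤ t ^ 2 / (K * D) := by positivity
    refine mul_le_mul_of_nonneg_right ?_ hq
    linarith

end Pool.Agent.Y509.DF
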