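import Mathlib
import Pool.Agent.TH41.LP.Stm
import Pool.Agent.TH41.LP.C2
import Pool.Agent.TH41.LP.C6

/-!
The values of `YY` near the real axis, on every vertical line `Re s = σ` with `σ ≠ 0` and `σ / D`
small.
-/

set_option autoImplicit false

open MeasureTheory Filter Topology

namespace Pool.Agent.Y509.DF

open Pool.Agent.TH41.LP Pool.Agent.TH41.LP.C2f

/-- upper bound of `B` for small `τ` -/
theorem B_le (hpp : S_pp) (F : Fam) {x τ δ : ℝ} (hx : 0 < x) (hδ : 0 ≤ δ) (_hδ1 : δ ≤ 1)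
    (hτ : ∀ i, τ ^ 2 ≤ δ * F.c i ^ 2) : F.B x τ ≤ τ ^ 2 / 2 * F.A2 x * (1 + δ) := by
  unfold Fam.B Fam.A2
  rw [Finset.mul_sum, Finset.sum_mul]
  refine Finset.sum_le_sum fun i _ => ?_
  have hc := F.c_pos i
  have hκ := F.κ_pos i
  obtain ⟨hp1, -, hp3, hp4, -⟩ := hpp
  have h1 := hp1 (F.c i) x τ hc hx
  have h3 := hp3 (F.c i) x τ hc hx
  have h4 := hp4 (F.c i) x τ hc hx
  set r := √(x ^ 2 + F.c i ^ 2) with hr
  set P := pp (F.c i) x τ with hP
  have hr0 : 0 < r := Real.sqrt_pos.2 (by positivity)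
  have hr2 : r ^ 2 = x ^ 2 + F.c i ^ 2 := Real.sq_sqrt (by positivity)
  have hcr : F.c i ≤ r := Real.le_sqrt_of_sq_le (by nlinarith)
  have hP0 : 0 < P := hx.trans_le h1.1
  have hPr : r - δ * r ≤ P := by
    have h5 : τ ^ 2 / F.c i ≤ δ * F.c i := by
      rw [div_le_iff₀ hc]
      nlinarith [hτ i]
    nlinarith [h4.2]
  have h6 : 1 - x ^ 2 / P ^ 2 ≤ F.c i ^ 2 / r ^ 2 := by
    have h7 : x ^ 2 / r ^ 2 ≤ x ^ 2 / P ^ 2 := by
      apply div_le_div_of_nonneg_left (by positivity) (by positivity)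
      exact pow_le_pow_left₀ hP0.le h1.2.1 2
    have h8 : F.c i ^ 2 / r ^ 2 = 1 - x ^ 2 / r ^ 2 := by
      rw [eq_sub_iff_add_eq, ← add_div, div_eq_one_iff_eq (by positivity), hr2]
      ring
    linarith
  have h9 : r - P ≤ τ ^ 2 / 2 * (F.c i ^ 2 / r ^ 3) * (1 + δ) := by
    rw [h3]
    have h10 : (1 - x ^ 2 / P ^ 2) / (r + P) ≤ F.c i ^ 2 / r ^ 2 / (r + P) :=
      div_le_div_of_nonneg_right h6 (by positivity)
    have h11 : F.c i ^ 2 / r ^ 2 / (r + P) ≤ F.c i ^ 2 / r ^ 2 * ((1 + δ) / (2 * r)) := by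
      rw [div_eq_mul_inv]
      apply mul_le_mul_of_nonneg_left _ (by positivity)
      rw [inv_eq_one_div, div_le_div_iff₀ (by positivity) (by positivity)]
      nlinarith [mul_nonneg hδ hr0.le, mul_nonneg (mul_nonneg hδ hr0.le) (sub_nonneg.2 _hδ1)]
    calc τ ^ 2 * ((1 - x ^ 2 / P ^ 2) / (r + P)) ≤
        τ ^ 2 * (F.c i ^ 2 / r ^ 2 * ((1 + δ) / (2 * r))) :=
          mul_le_mul_of_nonneg_left (h10.trans h11) (sq_nonneg τ)
      _ = τ ^ 2 / 2 * (F.c i ^ 2 / r ^ 3) * (1 + δ) := by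
          field_simp
  calc F.κ i * (r - P) ≤ F.κ i * (τ ^ 2 / 2 * (F.c i ^ 2 / r ^ 3) * (1 + δ)) :=
        mul_le_mul_of_nonneg_left h9 hκ.le
    _ = _ := by ring

theorem arctan_ge {u : ℝ} (hu : 0 ≤ u) : u - u ^ 3 ≤ Real.arctan u := by
  have h := C6f.mono_aux (g := fun t => Real.arctan t - t + t ^ 3)
    (g' := fun t => 1 / (1 + t ^ 2) - 1 + 3 * t ^ 2) hu (fun x => by
      have h1 := ((Real.hasDerivAt_arctan x).sub (hasDerivAt_id x)).add (hasDerivAt_pow 3 x)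
      exact h1.congr_deriv (by norm_num)) (fun x hx _ => by
      have h2 : 1 - x ^ 2 ≤ 1 / (1 + x ^ 2) := by
        rw [le_div_iff₀ (by positivity)]
        nlinarith [sq_nonneg (x ^ 2)]
      nlinarith [sq_nonneg x])
  simp only [Real.arctan_zero] at h
  norm_num at h
  linarith

/-- lower bound of `Phi` for small `τ` -/
theorem Phi_ge {x τ : ℝ} (hx : 0 ≤ x) (hx2 : x ≤ 1 / 2) :
    τ ^ 2 / 4 - 4 * τ ^ 4 ≤ Phi (-x) τ := by
  wlog hτ : 0 ≤ τ generalizing τ with H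
  · have := @H (-τ) (by linarith)
    have e : Phi (-x) (-τ) = Phi (-x) τ := by
      unfold Phi
      rw [neg_div, Real.arctan_neg, neg_sq]
      ring
    rw [e] at this
    have e2 : (-τ) ^ 4 = τ ^ 4 := by ring
    have e3 : (-τ) ^ 2 = τ ^ 2 := by ring
    rwa [e2, e3] at this
  unfold Phi
  set a := 1 + -x with ha
  have ha0 : 1 / 2 ≤ a := by rw [ha]; linarith
  have ha1 : a ≤ 1 := by rw [ha]; linarith
  have hapos : 0 < a := by linarith
  have h1 := arctan_ge (u := τ / a) (by positivity)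
  have h2 : Real.log (1 + τ ^ 2 / a ^ 2) ≤ τ ^ 2 / a ^ 2 := by
    have := Real.log_le_sub_one_of_pos (show 0 < 1 + τ ^ 2 / a ^ 2 by positivity)
    linarith
  have h3 : 1 / 2 * τ * (τ / a - (τ / a) ^ 3) ≤ 1 / 2 * τ * Real.arctan (τ / a) :=
    mul_le_mul_of_nonneg_left h1 (by positivity)
  have h4 : 1 / 4 * a * Real.log (1 + τ ^ 2 / a ^ 2) ≤ 1 / 4 * a * (τ ^ 2 / a ^ 2) :=
    mul_le_mul_of_nonneg_left h2 (by positivity)
  have h5 : 1 / 2 * τ * (τ / a - (τ / a) ^ 3) - 1 / 4 * a * (τ ^ 2 / a ^ 2) =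
      τ ^ 2 / 4 * (1 / a) - τ ^ 4 / 2 * (1 / a) ^ 3 := by
    field_simp
    ring
  have h6 : 1 ≤ 1 / a := by rw [le_div_iff₀ hapos]; linarith
  have h7 : 1 / a ≤ 2 := by rw [div_le_iff₀ hapos]; linarith
  have h8 : (1 / a) ^ 3 ≤ 8 := by
    calc (1 / a) ^ 3 ≤ 2 ^ 3 := pow_le_pow_left₀ (by positivity) h7 3
      _ = 8 := by norm_num
  have h9 : τ ^ 2 / 4 * 1 ≤ τ ^ 2 / 4 * (1 / a) := mul_le_mul_of_nonneg_left h6 (by positivity)
  have h10 : τ ^ 4 / 2 * (1 / a) ^ 3 ≤ τ ^ 4 / 2 * 8 := mul_le_mul_of_nonneg_left h8 (by positivity)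
  linarith

/-- the estimate of the exponent, for `σ > 0` -/
theorem exp_pos_side (hpp : S_pp) {η C : ℝ} {F : Fam} (hF : Pot η C F) (hη : 0 ≤ η)
    {x τ δ : ℝ} (hx : 0 < x) (hx2 : x ≤ 1 / 2) (hδ : 0 ≤ δ) (hδ1 : δ ≤ 1)
    (hτ : ∀ i, τ ^ 2 ≤ δ * F.c i ^ 2) (hτ2 : τ ^ 2 ≤ δ) :
    F.B x τ + F.B (1 - x) τ - Phi (-x) τ ≤ (η + 4 * x + 5 * δ) * τ ^ 2 := by
  have h1 := B_le hpp F hx hδ hδ1 hτ
  have h2 := B_le hpp F (show 0 < 1 - x by linarith) hδ hδ1 hτ
  have h3 := Phi_ge (τ := τ) hx.le hx2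
  have h4 := hF.p4 x hx.le hx2 x (1 - x) hx.le (le_refl _)
  have h5 : τ ^ 2 / 2 * (1 + δ) * (F.A2 x + F.A2 (1 - x)) ≤
      τ ^ 2 / 2 * (1 + δ) * (1 / 2 + η + 4 * x) :=
    mul_le_mul_of_nonneg_left h4 (by positivity)
  have h6 : τ ^ 4 ≤ δ * τ ^ 2 := by nlinarith [sq_nonneg τ]
  have h7 : δ * (η + 4 * x) ≤ 1 * (η + 4 * x) := mul_le_mul_of_nonneg_right hδ1 (by positivity)
  nlinarith [mul_nonneg (sq_nonneg τ) (show 0 ≤ (η + 4 * x) - δ * (η + 4 * x) by linarith)]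

/-- the estimate for fixed `D` -/
lemma core' (hee : S_ee) (hpp : S_pp) (hg : S_gam) (hph : S_gph) (F : Fam)
    {D K σ t E : ℝ} (hD : 0 < D) (hK : 0 < K) (hσ : σ ≠ 0) (hσ2 : σ ≤ D / 2)
    (hE : F.B (|σ| / D) (t / D) + F.B ((D - σ) / D) (t / D) - Phi (-(σ / D)) (t / D) ≤
      E * (t / D) ^ 2)
    (ht : ∀ i, |t| ≤ F.c i * D / 2) {ε : F.ι → ℝ}
    (hε : ∀ i, Real.exp (-(8 / 5 * (F.κ i * (F.c i * D)))) ≤ ε i) (hε2 : ∀ i, ε i ≤ 1 / 2) :
    ∃ m θ : ℝ, |θ| ≤ |t / 2| ^ 3 / ((D - σ) / 2 + 1) ^ 2 +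
        2 * ∑ i, (2 * ε i + F.κ i * (2 * |t| ^ 3 / (F.c i * D) ^ 2)) ∧
      Real.exp (-(t ^ 2 / (2 * K * D)) - E * (t ^ 2 / D) - 2 * (t ^ 2 / D ^ 2)) *
        ((∏ i, ((1 - ε i) / (1 + ε i))) * ∏ i, ((1 - ε i) / (1 + ε i))) ≤ m ∧
      YY F D K ((σ : ℂ) + (t : ℂ) * Complex.I) =
        YY F D K (σ : ℂ) * (m : ℂ) *
          Complex.exp (((alpha F D K σ * t + θ : ℝ) : ℂ) * Complex.I) := by
  have hDσ : 0 < D - σ := by linarith
  obtain ⟨m1, φ1, hφ1, hm1, he1⟩ := EE_polar hee hpp F hD hσ ht hε hε2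
  obtain ⟨m2, φ2, hφ2, hm2, he2⟩ := EE_polar (t := -t) hee hpp F hD hDσ.ne'
    (fun i => by rw [abs_neg]; exact ht i) hε hε2
  rw [abs_neg] at hφ2
  have hX : 0 < (D - σ) / 2 := by linarith
  obtain ⟨-, hgl⟩ := hg ((D - σ) / 2) (t / 2) hX
  obtain ⟨φ3, hφ3, hG⟩ := hph ((D - σ) / 2 + 1) (t / 2) (by linarith)
  have hcast : (((D - σ) / 2 : ℝ) : ℂ) + 1 = (((D - σ) / 2 + 1 : ℝ) : ℂ) := by push_cast; ring
  rw [hcast] at hgl
  set X : ℝ := (D - σ) / 2 + 1 with hXdef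
  set m3 : ℝ := ‖Complex.Gamma X / Complex.Gamma (X - (t / 2 : ℝ) * Complex.I)‖ with hm3
  have hDx : (D - σ) / D = 1 + -(σ / D) := by field_simp; ring
  have hgl' : gl ((D - σ) / 2) (t / 2) = D * Phi (-(σ / D)) (t / D) := by
    unfold gl Phi
    have h1 : t / 2 / ((D - σ) / 2) = t / D / (1 + -(σ / D)) := by
      rw [← hDx]
      field_simp
    have h2 : (t / 2) ^ 2 / ((D - σ) / 2) ^ 2 = (t / D) ^ 2 / (1 + -(σ / D)) ^ 2 := by
      rw [← div_pow, ← div_pow, h1]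
    rw [h1, h2]
    field_simp
    ring
  have hlog : 1 / 2 * Real.log (1 + (t / 2) ^ 2 / ((D - σ) / 2) ^ 2) ≤ 2 * (t ^ 2 / D ^ 2) := by
    have h1 : Real.log (1 + (t / 2) ^ 2 / ((D - σ) / 2) ^ 2) ≤ (t / 2) ^ 2 / ((D - σ) / 2) ^ 2 := by
      have h2 : 0 < 1 + (t / 2) ^ 2 / ((D - σ) / 2) ^ 2 := by positivity
      have := Real.log_le_sub_one_of_pos h2
      linarith
    have h2 : (t / 2) ^ 2 / ((D - σ) / 2) ^ 2 ≤ 4 * (t ^ 2 / D ^ 2) := by
      rw [show (t / 2) ^ 2 / ((D - σ) / 2) ^ 2 = t ^ 2 / (D - σ) ^ 2 by field_simp]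
      rw [show 4 * (t ^ 2 / D ^ 2) = t ^ 2 / (D / 2) ^ 2 by rw [div_pow, div_div_eq_mul_div]; ring]
      apply div_le_div_of_nonneg_left (sq_nonneg t) (by positivity)
      apply pow_le_pow_left₀ (by positivity)
      linarith
    linarith
  have hS1 := sum_eq hpp F (a := |σ|) (t := t) hD
  have hS2 := sum_eq hpp F (a := D - σ) (t := t) hD
  rw [sq_abs] at hS1
  have hpD : D * (F.B (|σ| / D) (t / D)) + D * (F.B ((D - σ) / D) (t / D)) -
      D * Phi (-(σ / D)) (t / D) ≤ E * (t ^ 2 / D) := by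
    have h1 : D * (F.B (|σ| / D) (t / D) + F.B ((D - σ) / D) (t / D) - Phi (-(σ / D)) (t / D)) ≤
        D * (E * (t / D) ^ 2) := mul_le_mul_of_nonneg_left hE hD.le
    have h2 : D * (E * (t / D) ^ 2) = E * (t ^ 2 / D) := by field_simp
    linarith
  rw [hS1] at hm1
  rw [abs_of_pos hDσ] at hm2
  simp only [pp_neg] at hm2
  rw [hS2] at hm2
  have hm3' : Real.exp (D * Phi (-(σ / D)) (t / D) - 2 * (t ^ 2 / D ^ 2)) ≤ m3 := by
    refine le_trans (Real.exp_le_exp.2 ?_) hgl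
    rw [hgl']
    linarith
  set G : ℝ := ∏ i, ((1 - ε i) / (1 + ε i)) with hGdef
  have hGpos : 0 ≤ G := by
    refine Finset.prod_nonneg fun i _ => ?_
    have h1 : 0 < ε i := (Real.exp_pos _).trans_le (hε i)
    have h2 := hε2 i
    exact div_nonneg (by linarith) (by linarith)
  have hm3nn : 0 ≤ m3 := norm_nonneg _
  have hm1nn : 0 ≤ m1 := le_trans (by positivity) hm1
  have hm2nn : 0 ≤ m2 := le_trans (by positivity) hm2
  refine ⟨Real.exp (-(t ^ 2 / (2 * K * D))) * m3 * m1 * m2, φ3 + φ1 + φ2, ?_, ?_, ?_⟩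
  · calc |φ3 + φ1 + φ2| ≤ |φ3| + |φ1| + |φ2| := abs_add_three _ _ _
      _ ≤ _ := by linarith
  · calc Real.exp (-(t ^ 2 / (2 * K * D)) - E * (t ^ 2 / D) - 2 * (t ^ 2 / D ^ 2)) * (G * G)
        ≤ Real.exp (-(t ^ 2 / (2 * K * D)) + (D * Phi (-(σ / D)) (t / D) - 2 * (t ^ 2 / D ^ 2)) +
            -(D * F.B (|σ| / D) (t / D)) + -(D * F.B ((D - σ) / D) (t / D))) * (G * G) := by
          gcongr
          linarith
      _ = Real.exp (-(t ^ 2 / (2 * K * D))) *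
            Real.exp (D * Phi (-(σ / D)) (t / D) - 2 * (t ^ 2 / D ^ 2)) *
            (Real.exp (-(D * F.B (|σ| / D) (t / D))) * G) *
            (Real.exp (-(D * F.B ((D - σ) / D) (t / D))) * G) := by
          rw [Real.exp_add, Real.exp_add, Real.exp_add]
          ring
      _ ≤ Real.exp (-(t ^ 2 / (2 * K * D))) * m3 * m1 * m2 := by
          gcongr
  · have hD2 : (D : ℂ) - ((σ : ℂ) + (t : ℂ) * Complex.I) =
        ((D - σ : ℝ) : ℂ) + ((-t : ℝ) : ℂ) * Complex.I := by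
      push_cast
      ring
    have hX2 : ((D : ℂ) - ((σ : ℂ) + (t : ℂ) * Complex.I)) / 2 + 1 =
        (X : ℂ) - ((t / 2 : ℝ) : ℂ) * Complex.I := by
      rw [hXdef]
      push_cast
      ring
    have hX3 : ((D : ℂ) - (σ : ℂ)) / 2 + 1 = (X : ℂ) := by
      rw [hXdef]
      push_cast
      ring
    have hD3 : (D : ℂ) - (σ : ℂ) = ((D - σ : ℝ) : ℂ) := by push_cast; ring
    unfold YY
    rw [hX2, hX3, hD2, hD3, he1, he2]
    have hGne : Complex.Gamma X ≠ 0 :=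
      Complex.Gamma_ne_zero_of_re_pos (by rw [Complex.ofReal_re]; linarith)
    have hGr : Complex.Gamma (D / 2 + 1) / Complex.Gamma (X - ((t / 2 : ℝ) : ℂ) * Complex.I) =
        Complex.Gamma (D / 2 + 1) / Complex.Gamma X *
          (Complex.Gamma X / Complex.Gamma (X - ((t / 2 : ℝ) : ℂ) * Complex.I)) := by
      field_simp
    rw [hGr, hG]
    have hE1 : Complex.exp (-(((σ : ℂ) + (t : ℂ) * Complex.I) / 2) * (Real.log Real.pi : ℝ)) =
        Complex.exp (-((σ : ℂ) / 2) * (Real.log Real.pi : ℝ)) *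
          Complex.exp (((-(1 / 2) * Real.log Real.pi * t : ℝ) : ℂ) * Complex.I) := by
      rw [← Complex.exp_add]
      congr 1
      push_cast
      ring
    have hKD : (K : ℂ) * (D : ℂ) ≠ 0 := by
      exact_mod_cast (mul_pos hK hD).ne'
    have hKc : (K : ℂ) ≠ 0 := by exact_mod_cast hK.ne'
    have hDc : (D : ℂ) ≠ 0 := by exact_mod_cast hD.ne'
    have hE2 : Complex.exp ((((σ : ℂ) + (t : ℂ) * Complex.I) ^ 2 -
          (D : ℂ) * ((σ : ℂ) + (t : ℂ) * Complex.I)) / (2 * (K : ℂ) * (D : ℂ))) =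
        Complex.exp (((σ : ℂ) ^ 2 - (D : ℂ) * (σ : ℂ)) / (2 * (K : ℂ) * (D : ℂ))) *
          ((Real.exp (-(t ^ 2 / (2 * K * D))) : ℝ) : ℂ) *
          Complex.exp ((((2 * σ - D) / (2 * K * D) * t : ℝ) : ℂ) * Complex.I) := by
      rw [Complex.ofReal_exp, ← Complex.exp_add, ← Complex.exp_add]
      congr 1
      push_cast
      field_simp
      linear_combination ((t : ℂ) ^ 2) * Complex.I_sq
    rw [hE1, hE2]
    have hfin : Complex.exp (((alpha F D K σ * t + (φ3 + φ1 + φ2) : ℝ) : ℂ) * Complex.I) =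
        Complex.exp (((-(1 / 2) * Real.log Real.pi * t : ℝ) : ℂ) * Complex.I) *
        Complex.exp ((((2 * σ - D) / (2 * K * D) * t : ℝ) : ℂ) * Complex.I) *
        Complex.exp (((dg X * (t / 2) + φ3 : ℝ) : ℂ) * Complex.I) *
        Complex.exp ((((∑ i, F.κ i * (σ / √(σ ^ 2 + (F.c i * D) ^ 2))) * t + φ1 : ℝ) : ℂ) *
          Complex.I) *
        Complex.exp ((((∑ i, F.κ i * ((D - σ) / √((D - σ) ^ 2 + (F.c i * D) ^ 2))) * (-t) +
          φ2 : ℝ) : ℂ) * Complex.I) := by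
      rw [← Complex.exp_add, ← Complex.exp_add, ← Complex.exp_add, ← Complex.exp_add]
      congr 1
      rw [← add_mul, ← add_mul, ← add_mul, ← add_mul, ← Complex.ofReal_add, ← Complex.ofReal_add,
        ← Complex.ofReal_add, ← Complex.ofReal_add]
      congr 2
      unfold alpha
      have hsum : ∑ i, F.κ i * (σ / √(σ ^ 2 + (F.c i * D) ^ 2) -
          (D - σ) / √((D - σ) ^ 2 + (F.c i * D) ^ 2)) =
          ∑ i, F.κ i * (σ / √(σ ^ 2 + (F.c i * D) ^ 2)) -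
            ∑ i, F.κ i * ((D - σ) / √((D - σ) ^ 2 + (F.c i * D) ^ 2)) := by
        rw [← Finset.sum_sub_distrib]
        exact Finset.sum_congr rfl fun i _ => by ring
      rw [hsum, ← hXdef]
      ring
    rw [hfin]
    push_cast
    ring

theorem c2x (he : S_ee) (hpp : S_pp) (hg : S_gam) (hph : S_gph) {K C η : ℝ} (hK : 0 < K)
    (hη : 0 ≤ η) (hKη : K * η ≤ 1 / 400) (F : Fam) (hF : Pot η C F) :
    ∃ D0 : ℝ, 0 < D0 ∧ ∀ D : ℝ, D0 ≤ D → ∀ σ : ℝ, σ ≠ 0 → σ / D ≤ 1 / 2 →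
      4 * (σ / D) * K ≤ 1 / 400 → ∀ t : ℝ, |t| ≤ 3 * √(K * D) →
      ∃ m θ : ℝ, |θ| ≤ 1 / 1000 ∧
        99 / 100 * Real.exp (-(51 / 100) * t ^ 2 / (K * D)) ≤ m ∧
        YY F D K (σ + t * Complex.I) =
          YY F D K σ * (m : ℂ) * Complex.exp (((alpha F D K σ * t + θ : ℝ) : ℂ) * Complex.I) := by
  classical
  set ε : ℝ → F.ι → ℝ := fun D i => Real.exp (-(8 / 5 * (F.κ i * (F.c i * D)))) with hεdef
  set q : ℝ → ℝ := fun D => K * √K / √D with hqdef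
  have hεlim : ∀ i, Tendsto (fun D => ε D i) atTop (𝓝 0) := by
    intro i
    have h1 : 0 < 8 / 5 * (F.κ i * F.c i) := by
      have := F.κ_pos i
      have := F.c_pos i
      positivity
    have h2 : Tendsto (fun D : ℝ => 8 / 5 * (F.κ i * F.c i) * D) atTop atTop :=
      tendsto_id.const_mul_atTop h1
    have h3 := Real.tendsto_exp_neg_atTop_nhds_zero.comp h2
    refine h3.congr fun D => ?_
    simp only [hεdef, Function.comp_apply]
    congr 1
    ring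
  have hq : Tendsto q atTop (𝓝 0) := tendsto_const_nhds.div_atTop Real.tendsto_sqrt_atTop
  have hprod : Tendsto (fun D => ∏ i, ((1 - ε D i) / (1 + ε D i))) atTop (𝓝 1) := by
    have h1 : Tendsto (fun D => ∏ i, ((1 - ε D i) / (1 + ε D i))) atTop
        (𝓝 (∏ _i : F.ι, ((1 - 0) / (1 + 0) : ℝ))) := by
      refine tendsto_finsetProd _ fun i _ => ?_
      exact ((hεlim i).const_sub 1).div ((hεlim i).const_add 1) (by norm_num)
    simpa using h1
  have hgl : Tendsto (fun D : ℝ => Real.exp (-(18 * K / D)) *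
      ((∏ i, ((1 - ε D i) / (1 + ε D i))) * ∏ i, ((1 - ε D i) / (1 + ε D i)))) atTop (𝓝 1) := by
    have h1 : Tendsto (fun D : ℝ => 18 * K / D) atTop (𝓝 0) :=
      tendsto_const_nhds.div_atTop tendsto_id
    have h2 : Tendsto (fun D : ℝ => Real.exp (-(18 * K / D))) atTop (𝓝 1) := by
      have := (Real.continuous_exp.tendsto _).comp h1.neg
      simpa [Function.comp_def] using this
    simpa using h2.mul (hprod.mul hprod)
  have hhl : Tendsto (fun D : ℝ => 54 * q D +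
      2 * ∑ i, (2 * ε D i + F.κ i * (54 / F.c i ^ 2 * q D))) atTop (𝓝 0) := by
    have h1 : Tendsto (fun D => ∑ i, (2 * ε D i + F.κ i * (54 / F.c i ^ 2 * q D))) atTop
        (𝓝 (∑ i : F.ι, (2 * 0 + F.κ i * (54 / F.c i ^ 2 * 0)))) := by
      refine tendsto_finsetSum _ fun i _ => ?_
      exact ((hεlim i).const_mul 2).add ((hq.const_mul _).const_mul _)
    have h2 := (hq.const_mul 54).add (h1.const_mul 2)
    simpa using h2
  have e1 := hgl.eventually (lt_mem_nhds (show (99 / 100 : ℝ) < 1 by norm_num))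
  have e2 := hhl.eventually (gt_mem_nhds (show (0 : ℝ) < 1 / 1000 by norm_num))
  have e3 : ∀ᶠ D in atTop, ∀ i, √K / √D ≤ F.c i / 6 := by
    rw [Filter.eventually_all]
    intro i
    have h1 : Tendsto (fun D : ℝ => √K / √D) atTop (𝓝 0) :=
      tendsto_const_nhds.div_atTop Real.tendsto_sqrt_atTop
    have h2 : (0 : ℝ) < F.c i / 6 := by
      have := F.c_pos i
      positivity
    exact (h1.eventually (gt_mem_nhds h2)).mono fun D hD => hD.le
  have e4 : ∀ᶠ D in atTop, ∀ i, ε D i ≤ 1 / 2 := by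
    rw [Filter.eventually_all]
    intro i
    exact ((hεlim i).eventually (gt_mem_nhds (show (0 : ℝ) < 1 / 2 by norm_num))).mono
      fun D hD => hD.le
  set δ : ℝ := min 1 (1 / (1000 * K)) with hδdef
  have hδ0 : 0 < δ := lt_min one_pos (by positivity)
  have hδ1 : δ ≤ 1 := min_le_left _ _
  have hδK : K * δ ≤ 1 / 1000 := by
    have : δ ≤ 1 / (1000 * K) := min_le_right _ _
    rw [le_div_iff₀ (by positivity)] at this
    linarith
  have e5 : ∀ᶠ D : ℝ in atTop, 9 * K / D ≤ δ := by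
    have h1 : Tendsto (fun D : ℝ => 9 * K / D) atTop (𝓝 0) :=
      tendsto_const_nhds.div_atTop tendsto_id
    exact (h1.eventually (gt_mem_nhds hδ0)).mono fun D hD => hD.le
  have e6 : ∀ᶠ D : ℝ in atTop, ∀ i, 9 * K / D ≤ δ * F.c i ^ 2 := by
    rw [Filter.eventually_all]
    intro i
    have h1 : Tendsto (fun D : ℝ => 9 * K / D) atTop (𝓝 0) :=
      tendsto_const_nhds.div_atTop tendsto_id
    have h2 : 0 < δ * F.c i ^ 2 := by
      have := F.c_pos i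
      positivity
    exact (h1.eventually (gt_mem_nhds h2)).mono fun D hD => hD.le
  obtain ⟨D1, hD1⟩ := eventually_atTop.1 (((((e1.and e2).and e3).and e4).and e5).and e6)
  refine ⟨max D1 1, by positivity, fun D hD σ hσ hσ2 hσ3 t ht => ?_⟩
  obtain ⟨⟨⟨⟨⟨a1, a2⟩, a3⟩, a4⟩, a5⟩, a6⟩ := hD1 D ((le_max_left _ _).trans hD)
  have hDpos : 0 < D := zero_lt_one.trans_le ((le_max_right _ _).trans hD)
  have hKD : 0 < K * D := mul_pos hK hDpos
  have hsq : 0 < √(K * D) := Real.sqrt_pos.2 hKD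
  have hσD : σ ≤ D / 2 := by
    rw [div_le_iff₀ hDpos] at hσ2
    linarith
  have htc : ∀ i, |t| ≤ F.c i * D / 2 := by
    intro i
    have h1 : √(K * D) = √K / √D * D := by
      have h2 : √D ≠ 0 := (Real.sqrt_pos.2 hDpos).ne'
      have h3 : √D * √D = D := Real.mul_self_sqrt hDpos.le
      rw [Real.sqrt_mul hK.le, div_mul_eq_mul_div, eq_div_iff h2, mul_assoc, h3]
    have h4 := mul_le_mul_of_nonneg_right (a3 i) hDpos.le
    rw [h1] at ht
    linarith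
  have ht2 : t ^ 2 ≤ 9 * (K * D) := by
    have h1 : |t| ^ 2 ≤ (3 * √(K * D)) ^ 2 := by gcongr
    rw [sq_abs] at h1
    calc t ^ 2 ≤ (3 * √(K * D)) ^ 2 := h1
      _ = 9 * √(K * D) ^ 2 := by ring
      _ = 9 * (K * D) := by rw [Real.sq_sqrt hKD.le]
  have hτ0 : (t / D) ^ 2 ≤ 9 * K / D := by
    rw [div_pow, div_le_div_iff₀ (by positivity) hDpos]
    nlinarith
  -- the exponent
  obtain ⟨E, hE, hKE⟩ : ∃ E : ℝ, F.B (|σ| / D) (t / D) + F.B ((D - σ) / D) (t / D) -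
      Phi (-(σ / D)) (t / D) ≤ E * (t / D) ^ 2 ∧ K * E ≤ 1 / 100 := by
    rcases lt_or_gt_of_ne hσ with hσ0 | hσ0
    · refine ⟨η, ?_, by linarith⟩
      have hx : 0 < -σ / D := div_pos (by linarith) hDpos
      have h1 := (abs_le.1 (hF.p1 (-σ / D) hx (t / D))).2
      have e1 : |σ| / D = -σ / D := by rw [abs_of_neg hσ0]
      have e2 : (D - σ) / D = 1 + -σ / D := by field_simp; ring
      have e3 : -(σ / D) = -σ / D := by ring
      rw [e1, e2, e3]
      exact h1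
    · refine ⟨η + 4 * (σ / D) + 5 * δ, ?_, ?_⟩
      · have hx : 0 < σ / D := div_pos hσ0 hDpos
        have e1 : |σ| / D = σ / D := by rw [abs_of_pos hσ0]
        have e2 : (D - σ) / D = 1 - σ / D := by field_simp
        rw [e1, e2]
        exact exp_pos_side hpp hF hη hx hσ2 hδ0.le hδ1 (fun i => hτ0.trans (a6 i))
          (hτ0.trans a5)
      · have : K * (η + 4 * (σ / D) + 5 * δ) = K * η + 4 * (σ / D) * K + 5 * (K * δ) := by ring
        rw [this]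
        linarith
  obtain ⟨m, θ, hθ, hm, heq⟩ := core' he hpp hg hph F hDpos hK hσ hσD hE htc
    (ε := ε D) (fun i => le_rfl) a4
  refine ⟨m, θ, ?_, ?_, heq⟩
  · have ht3 : |t| ^ 3 ≤ 27 * (q D * D ^ 2) := by
      have h1 : |t| ^ 3 ≤ (3 * √(K * D)) ^ 3 := by gcongr
      calc |t| ^ 3 ≤ (3 * √(K * D)) ^ 3 := h1
        _ = 27 * √(K * D) ^ 3 := by ring
        _ = 27 * (q D * D ^ 2) := by rw [cube_sqrt hK hDpos]
    have hq0 : 0 ≤ q D := by
      simp only [hqdef]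
      positivity
    have h1 : |t / 2| ^ 3 / ((D - σ) / 2 + 1) ^ 2 ≤ 54 * q D := by
      have hX : 0 < (D - σ) / 2 + 1 := by linarith
      rw [div_le_iff₀ (by positivity)]
      have h2 : |t / 2| ^ 3 = |t| ^ 3 / 8 := by
        rw [abs_div, abs_of_pos (show (0 : ℝ) < 2 by norm_num)]
        ring
      have h3 : (D / 4) ^ 2 ≤ ((D - σ) / 2 + 1) ^ 2 := by
        apply pow_le_pow_left₀ (by positivity)
        linarith
      have h4 : 54 * q D * (D / 4) ^ 2 ≤ 54 * q D * ((D - σ) / 2 + 1) ^ 2 :=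
        mul_le_mul_of_nonneg_left h3 (by positivity)
      rw [h2]
      linarith
    have h2 : ∀ i, F.κ i * (2 * |t| ^ 3 / (F.c i * D) ^ 2) ≤ F.κ i * (54 / F.c i ^ 2 * q D) := by
      intro i
      have hc := F.c_pos i
      refine mul_le_mul_of_nonneg_left ?_ (F.κ_pos i).le
      rw [div_le_iff₀ (by positivity)]
      have h3 : 54 / F.c i ^ 2 * q D * (F.c i * D) ^ 2 = 54 * (q D * D ^ 2) := by
        field_simp
      rw [h3]
      linarith
    have h3 : ∑ i, (2 * ε D i + F.κ i * (2 * |t| ^ 3 / (F.c i * D) ^ 2)) ≤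
        ∑ i, (2 * ε D i + F.κ i * (54 / F.c i ^ 2 * q D)) :=
      Finset.sum_le_sum fun i _ => by linarith [h2 i]
    linarith
  · refine le_trans ?_ hm
    set G : ℝ := ∏ i, ((1 - ε D i) / (1 + ε D i)) with hGdef
    have hG : 0 ≤ G := by
      refine Finset.prod_nonneg fun i _ => ?_
      have h1 : 0 < ε D i := Real.exp_pos _
      have h2 := a4 i
      exact div_nonneg (by linarith) (by linarith)
    have h1 : 2 * (t ^ 2 / D ^ 2) ≤ 18 * K / D := by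
      rw [← mul_div_assoc, div_le_div_iff₀ (by positivity) hDpos]
      nlinarith
    have h2 : E * (t ^ 2 / D) ≤ 1 / 100 * (t ^ 2 / (K * D)) := by
      have h3 : E * (t ^ 2 / D) = K * E * (t ^ 2 / (K * D)) := by field_simp
      rw [h3]
      exact mul_le_mul_of_nonneg_right hKE (by positivity)
    have h3 : t ^ 2 / (2 * K * D) = 1 / 2 * (t ^ 2 / (K * D)) := by field_simp
    have h4 : -(51 / 100) * t ^ 2 / (K * D) = -(51 / 100) * (t ^ 2 / (K * D)) := by ring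
    have h5 : 0 ≤ t ^ 2 / (K * D) := by positivity
    calc 99 / 100 * Real.exp (-(51 / 100) * t ^ 2 / (K * D))
        ≤ (Real.exp (-(18 * K / D)) * (G * G)) *
            Real.exp (-(51 / 100) * t ^ 2 / (K * D)) := by
          gcongr
      _ = Real.exp (-(51 / 100) * t ^ 2 / (K * D) + -(18 * K / D)) * (G * G) := by
          rw [Real.exp_add]
          ring
      _ ≤ Real.exp (-(t ^ 2 / (2 * K * D)) - E * (t ^ 2 / D) - 2 * (t ^ 2 / D ^ 2)) *
            (G * G) := by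
          gcongr
          rw [h4, h3]
          linarith

end Pool.Agent.Y509.DF
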