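import Mathlib
import Pool.Agent.TH41.LP.Stm
import Pool.Agent.TH41.LP.C6
import Pool.Agent.TH41.LP.GREA

/-!
The value of `YY` at a small positive multiple of `D` is exponentially smaller than the
exponential of its logarithmic derivative there.
-/

set_option autoImplicit false

open MeasureTheory Filter Topology

namespace Pool.Agent.Y509.DF

open Pool.Agent.TH41.LP Pool.Agent.TH41.LP.C6f

theorem dg_up {a h : ℝ} (ha : 0 < a) (hh : 0 ≤ h) : dg (a + h) - dg a ≤ h * (1 / a + 1 / a ^ 2) := by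
  have hah : 0 < a + h := by linarith
  rw [GREAf.dg_sub (a + h) a hah ha, tsum_mul_left]
  have e : a + h - a = h := by ring
  rw [e]
  refine mul_le_mul_of_nonneg_left ?_ hh
  have hs := GREAf.summable_prod (a + h) a hah ha
  rw [hs.tsum_eq_zero_add]
  have ht := GREAf.hasSum_tel a ha
  have h1 : ∑' k : ℕ, 1 / ((a + h + ((k + 1 : ℕ) : ℝ)) * (a + ((k + 1 : ℕ) : ℝ))) ≤ 1 / a := by
    rw [← ht.tsum_eq]
    refine Summable.tsum_le_tsum (fun k => ?_) ((summable_nat_add_iff 1).2 hs) ht.summable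
    have hk : (0 : ℝ) ≤ k := Nat.cast_nonneg k
    push_cast
    have e1 : 1 / (a + (k : ℝ)) - 1 / (a + ((k : ℝ) + 1)) =
        1 / ((a + k) * (a + ((k : ℝ) + 1))) := by
      have q1 : a + (k : ℝ) ≠ 0 := by positivity
      have q2 : a + ((k : ℝ) + 1) ≠ 0 := by positivity
      field_simp
      ring
    rw [e1]
    refine one_div_le_one_div_of_le (by positivity) ?_
    refine mul_le_mul_of_nonneg_right ?_ (by positivity)
    linarith
  have h2 : 1 / ((a + h + ((0 : ℕ) : ℝ)) * (a + ((0 : ℕ) : ℝ))) ≤ 1 / a ^ 2 := by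
    refine one_div_le_one_div_of_le (by positivity) ?_
    push_cast
    nlinarith
  linarith

theorem A2_anti (F : Fam) {a b : ℝ} (ha : 0 ≤ a) (hab : a ≤ b) : F.A2 b ≤ F.A2 a := by
  unfold Fam.A2
  refine Finset.sum_le_sum fun i _ => ?_
  have hc := F.c_pos i
  refine mul_le_mul_of_nonneg_left ?_ (F.κ_pos i).le
  have h1 : 0 < √(a ^ 2 + F.c i ^ 2) := Real.sqrt_pos.2 (by positivity)
  apply div_le_div_of_nonneg_left (by positivity) (by positivity)
  apply pow_le_pow_left₀ h1.le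
  apply Real.sqrt_le_sqrt
  have := pow_le_pow_left₀ ha hab 2
  linarith

theorem A1_inc (F : Fam) {a h : ℝ} (ha : 0 ≤ a) (hh : 0 ≤ h) :
    F.A1 (a + h) - F.A1 a ≤ h * F.A2 a := by
  have hd : ∀ t : ℝ, HasDerivAt (fun t => t * F.A2 a - F.A1 (a + t)) (F.A2 a - F.A2 (a + t)) t := by
    intro t
    have e1 : HasDerivAt (fun t : ℝ => a + t) 1 t := by
      simpa using (hasDerivAt_id t).const_add a
    have e2 : HasDerivAt (fun t : ℝ => F.A1 (a + t)) (F.A2 (a + t) * 1) t :=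
      (hd_A1 F (a + t)).comp t e1
    have e3 := ((hasDerivAt_id t).mul_const (F.A2 a)).sub e2
    exact e3.congr_deriv (by ring)
  have := mono_aux hh hd (fun t ht _ => by
    have := A2_anti F ha (show a ≤ a + t by linarith)
    linarith)
  simp only [zero_mul, add_zero, zero_sub] at this
  linarith

theorem T1 (F : Fam) {x : ℝ} (hx : 0 ≤ x) : F.A0 x - x * F.A1 x ≤ -(x ^ 2 / 2 * F.A2 x) := by
  have hd : ∀ t : ℝ, HasDerivAt (fun t => t * F.A1 t - F.A0 t - t ^ 2 / 2 * F.A2 x)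
      (t * F.A2 t - t * F.A2 x) t := by
    intro t
    have e3 := (((hasDerivAt_id t).mul (hd_A1 F t)).sub (hd_A0 F t)).sub
      (((hasDerivAt_pow 2 t).div_const 2).mul_const (F.A2 x))
    refine e3.congr_deriv ?_
    simp only [id]
    norm_num
  have := mono_aux hx hd (fun t ht htx => by
    have h := A2_anti F ht htx
    have := mul_le_mul_of_nonneg_left h ht
    linarith)
  simp only [zero_mul, A0_zero, sub_zero] at this
  norm_num at this
  linarith

theorem T2 (F : Fam) {x : ℝ} (hx : 0 ≤ x) (hx1 : x ≤ 1) :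
    F.A0 (1 - x) - F.A0 1 + x * F.A1 (1 - x) ≤ -(x ^ 2 / 2 * F.A2 1) := by
  have h1 : ∀ t : ℝ, 0 ≤ t → t ≤ x → t * F.A2 1 ≤ F.A1 (1 - x + t) - F.A1 (1 - x) := by
    intro t ht htx
    have hd : ∀ t : ℝ, HasDerivAt (fun t => F.A1 (1 - x + t) - t * F.A2 1)
        (F.A2 (1 - x + t) - F.A2 1) t := by
      intro t
      have e1 : HasDerivAt (fun t : ℝ => 1 - x + t) 1 t := by
        simpa using (hasDerivAt_id t).const_add (1 - x)
      have e2 : HasDerivAt (fun t : ℝ => F.A1 (1 - x + t)) (F.A2 (1 - x + t) * 1) t :=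
        (hd_A1 F (1 - x + t)).comp t e1
      have e3 := e2.sub ((hasDerivAt_id t).mul_const (F.A2 1))
      exact e3.congr_deriv (by ring)
    have := mono_aux ht hd (fun s hs hst => by
      have := A2_anti F (show 0 ≤ 1 - x + s by linarith) (show 1 - x + s ≤ 1 by linarith)
      linarith)
    simp only [zero_mul, add_zero, sub_zero] at this
    linarith
  have hd : ∀ t : ℝ, HasDerivAt
      (fun t => F.A0 (1 - x + t) - t * F.A1 (1 - x) - t ^ 2 / 2 * F.A2 1)
      (F.A1 (1 - x + t) - F.A1 (1 - x) - t * F.A2 1) t := by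
    intro t
    have e1 : HasDerivAt (fun t : ℝ => 1 - x + t) 1 t := by
      simpa using (hasDerivAt_id t).const_add (1 - x)
    have e2 : HasDerivAt (fun t : ℝ => F.A0 (1 - x + t)) (F.A1 (1 - x + t) * 1) t :=
      (hd_A0 F (1 - x + t)).comp t e1
    have e3 := (e2.sub ((hasDerivAt_id t).mul_const (F.A1 (1 - x)))).sub
      (((hasDerivAt_pow 2 t).div_const 2).mul_const (F.A2 1))
    refine e3.congr_deriv ?_
    norm_num
  have := mono_aux hx hd (fun t ht htx => by
    have := h1 t ht htx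
    linarith)
  have e : 1 - x + x = 1 := by ring
  simp only [zero_mul, add_zero, sub_zero, e] at this
  norm_num at this
  linarith

theorem A2_lower {η C x : ℝ} {F : Fam} (hF : Pot η C F) (hx : 0 < x) (hx2 : 2 * x ≤ C) :
    1 / 2 * x - x ^ 2 - 2 * η ≤ x * (F.A2 x + F.A2 1) := by
  have h1 := (abs_le.1 (hF.p3 (x + x) (by linarith) (by linarith))).1
  have h2 := (abs_le.1 (hF.p3 x hx.le (by linarith))).2
  have h3 := A1_inc F hx.le hx.le
  have h4 := A1_inc F (show 0 ≤ 1 + x by linarith) hx.le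
  have h5 := A2_anti F (show (0 : ℝ) ≤ 1 by norm_num) (show (1 : ℝ) ≤ 1 + x by linarith)
  have h6 := mul_le_mul_of_nonneg_left h5 hx.le
  have e1 : 1 + x + x = 1 + (x + x) := by ring
  rw [e1] at h4
  have hpi := Real.pi_pos
  have h7 : Real.log (Real.pi / 2 * (1 + (x + x))) - Real.log (Real.pi / 2 * (1 + x)) ≥
      x - 2 * x ^ 2 := by
    rw [Real.log_mul (by positivity) (by positivity), Real.log_mul (by positivity) (by positivity)]
    have h8 : Real.log (1 + x) - Real.log (1 + (x + x)) ≤ (1 + x) / (1 + (x + x)) - 1 := by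
      rw [← Real.log_div (by positivity) (by positivity)]
      exact Real.log_le_sub_one_of_pos (by positivity)
    have h9 : (1 + x) / (1 + (x + x)) - 1 ≤ -(x - 2 * x ^ 2) := by
      rw [div_sub_one (by positivity), div_le_iff₀ (by positivity)]
      nlinarith [pow_pos hx 3]
    linarith
  linarith

theorem Psi_le {η C x : ℝ} {F : Fam} (hF : Pot η C F) (hx : 0 < x) (hx1 : x ≤ 1)
    (hx2 : 2 * x ≤ C) :
    F.A0 x + F.A0 (1 - x) - F.A0 1 - x * (F.A1 x - F.A1 (1 - x)) ≤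
      -(x ^ 2 / 4) + x ^ 3 / 2 + η * x := by
  have h1 := T1 F hx.le
  have h2 := T2 F hx.le hx1
  have h3 := A2_lower hF hx hx2
  have h4 := mul_le_mul_of_nonneg_left h3 hx.le
  nlinarith

theorem zz (he : S_ee) (hg : S_gre) {K C η x : ℝ} (hK : 0 < K) (F : Fam) (hF : Pot η C F)
    (hx : 0 < x) (hx2 : x ≤ 1 / 2) (hxC : 2 * x ≤ C) (hxK : 3 / 2 * x + η / x ≤ 1 / (4 * K)) :
    ∃ D0 : ℝ, 0 < D0 ∧ ∀ D : ℝ, D0 ≤ D →
      ‖YY F D K ((x * D : ℝ) : ℂ)‖ ≤ Real.exp (x * D * alpha F D K (x * D) -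
        x ^ 2 / (8 * K) * D) := by
  obtain ⟨D1, hD1⟩ := eventually_atTop.1 ((tend_exp F).eventually
    (gt_mem_nhds (show (0 : ℝ) < 1 / 1000 by norm_num)))
  refine ⟨max (max D1 1) (40 * K / x ^ 2), by positivity, ?_⟩
  intro D hD
  have hDD1 : D1 ≤ D := ((le_max_left _ _).trans (le_max_left _ _)).trans hD
  have hDone : 1 ≤ D := ((le_max_right _ _).trans (le_max_left _ _)).trans hD
  have hDK : 40 * K / x ^ 2 ≤ D := (le_max_right _ _).trans hD
  have hD0 : 0 < D := by linarith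
  have hexp := hD1 D hDD1
  set X : ℝ := D / 2 + 1 with hX
  have hX0 : 0 < X := by rw [hX]; linarith
  set u : ℝ := x * D / 2 with hu
  have hu0 : 0 ≤ u := by positivity
  have huX : u < X := by rw [hX, hu]; nlinarith
  have hG := hg.2.2.1 X u hX0 hu0 huX
  have hXu : X - u = (D - x * D) / 2 + 1 := by rw [hX, hu]; ring
  have hXu0 : 0 < X - u := by linarith
  have hdg := dg_up hXu0 hu0
  have e0 : X - u + u = X := by ring
  rw [e0] at hdg
  have hXuD : (1 - x) * D / 2 ≤ X - u := by rw [hX, hu]; nlinarith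
  have hXuD4 : D / 4 ≤ X - u := by nlinarith
  -- the gamma terms
  have hg1 : u ^ 2 / (X - u) ≤ x ^ 2 * D * (1 / 2 + x) := by
    rw [div_le_iff₀ hXu0]
    have h1 : x ^ 2 * D * (1 / 2 + x) * ((1 - x) * D / 2) ≤ x ^ 2 * D * (1 / 2 + x) * (X - u) :=
      mul_le_mul_of_nonneg_left hXuD (by positivity)
    refine le_trans ?_ h1
    rw [hu]
    have h2 : 1 / 2 ≤ (1 / 2 + x) * (1 - x) := by nlinarith
    have h3 : x ^ 2 * D ^ 2 / 2 * (1 / 2) ≤ x ^ 2 * D ^ 2 / 2 * ((1 / 2 + x) * (1 - x)) :=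
      mul_le_mul_of_nonneg_left h2 (by positivity)
    nlinarith
  have hg2 : u ^ 2 / (X - u) ^ 2 ≤ 4 * x ^ 2 := by
    rw [div_le_iff₀ (by positivity)]
    have h1 : (D / 4) ^ 2 ≤ (X - u) ^ 2 := pow_le_pow_left₀ (by positivity) hXuD4 2
    have h2 : 4 * x ^ 2 * (D / 4) ^ 2 ≤ 4 * x ^ 2 * (X - u) ^ 2 :=
      mul_le_mul_of_nonneg_left h1 (by positivity)
    refine le_trans (le_of_eq ?_) h2
    rw [hu]
    ring
  have hg3 : x ^ 2 * D / 4 - x ^ 2 / 2 ≤ u ^ 2 / (2 * X) := by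
    rw [le_div_iff₀ (by positivity), hX, hu]
    nlinarith [sq_nonneg x]
  have hg4 : u * (dg X - dg (X - u)) - u ^ 2 / (2 * X) ≤
      x ^ 2 * D * (1 / 4 + x) + 9 / 2 * x ^ 2 := by
    have h1 := mul_le_mul_of_nonneg_left hdg hu0
    have h2 : u * (u * (1 / (X - u) + 1 / (X - u) ^ 2)) = u ^ 2 / (X - u) + u ^ 2 / (X - u) ^ 2 := by
      ring
    rw [h2] at h1
    linarith
  have hPsi := Psi_le hF hx (by linarith) hxC
  -- the products
  have hE1 := ER_ratio1 F (a := x) hD0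
  have hE2 := ER_ratio2 F (a := x) hD0
  have hDa : D * x = x * D := mul_comm _ _
  have hDa' : D * (1 - x) = D - x * D := by ring
  rw [hDa] at hE1
  rw [hDa'] at hE2
  rw [yy_real he F hD0, Complex.norm_real, Real.norm_eq_abs]
  have hXu1 : 0 < (D - x * D) / 2 + 1 := by rw [← hXu]; exact hXu0
  have hGam : 0 < Real.Gamma X / Real.Gamma ((D - x * D) / 2 + 1) :=
    div_pos (Real.Gamma_pos_of_pos hX0) (Real.Gamma_pos_of_pos hXu1)
  rw [hXu] at hG
  have hERr : ER F D (x * D) * ER F D (D - x * D) / (ER F D 0 * ER F D D) ≤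
      Real.exp (D * F.A0 x) * Real.exp (D * (F.A0 (1 - x) - F.A0 1) +
        ∑ i, Real.exp (-(2 * (F.κ i * (F.c i * D))))) := by
    rw [div_le_iff₀ (mul_pos (ER_pos _ _ _) (ER_pos _ _ _))]
    calc _ ≤ (Real.exp (D * F.A0 x) * ER F D 0) * (Real.exp (D * (F.A0 (1 - x) - F.A0 1) +
        ∑ i, Real.exp (-(2 * (F.κ i * (F.c i * D))))) * ER F D D) :=
          mul_le_mul hE1 hE2 (ER_pos _ _ _).le (by
            have := ER_pos F D 0
            positivity)
      _ = _ := by ring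
  have hERpos : 0 < ER F D (x * D) * ER F D (D - x * D) / (ER F D 0 * ER F D D) :=
    div_pos (mul_pos (ER_pos _ _ _) (ER_pos _ _ _)) (mul_pos (ER_pos _ _ _) (ER_pos _ _ _))
  have hYpos : 0 < YR F D K (x * D) := by
    unfold YR
    positivity
  rw [abs_of_pos hYpos]
  have hYle : YR F D K (x * D) ≤
      Real.exp (-(x * D / 2) * Real.log Real.pi) *
      Real.exp (((x * D) ^ 2 - D * (x * D)) / (2 * K * D)) *
      Real.exp (u * dg X - u ^ 2 / (2 * X)) *
      (Real.exp (D * F.A0 x) * Real.exp (D * (F.A0 (1 - x) - F.A0 1) +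
        ∑ i, Real.exp (-(2 * (F.κ i * (F.c i * D)))))) := by
    unfold YR
    apply mul_le_mul _ hERr hERpos.le (by positivity)
    apply mul_le_mul_of_nonneg_left hG (by positivity)
  refine hYle.trans ?_
  rw [← Real.exp_add, ← Real.exp_add, ← Real.exp_add, ← Real.exp_add]
  apply Real.exp_le_exp.2
  have hal : alpha F D K (x * D) = -(1 / 2) * Real.log Real.pi + (2 * (x * D) - D) / (2 * K * D) +
      1 / 2 * dg (X - u) + (F.A1 x - F.A1 (1 - x)) := by
    unfold alpha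
    rw [hXu]
    congr 1
    unfold Fam.A1
    rw [← Finset.sum_sub_distrib]
    apply Finset.sum_congr rfl
    intro i _
    have h3 : √(x ^ 2 + F.c i ^ 2) ≠ 0 := by
      have := F.c_pos i
      positivity
    have h4 : √((1 - x) ^ 2 + F.c i ^ 2) ≠ 0 := by
      have := F.c_pos i
      positivity
    have h5 : D - x * D = D * (1 - x) := by ring
    have h6 : x * D = D * x := mul_comm _ _
    rw [h5, h6, sqrt_scale hD0, sqrt_scale hD0, mul_div_mul_left _ _ hD0.ne',
      mul_div_mul_left _ _ hD0.ne']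
    ring
  rw [hal]
  have hn1 : ((x * D) ^ 2 - D * (x * D)) / (2 * K * D) -
      x * D * ((2 * (x * D) - D) / (2 * K * D)) = -(x ^ 2 / (2 * K) * D) := by
    field_simp
    ring
  have hn2 : D * (F.A0 x + F.A0 (1 - x) - F.A0 1 - x * (F.A1 x - F.A1 (1 - x))) ≤
      D * (-(x ^ 2 / 4) + x ^ 3 / 2 + η * x) := mul_le_mul_of_nonneg_left hPsi hD0.le
  have hn3 : x ^ 2 * D * (3 / 2 * x + η / x) ≤ x ^ 2 * D * (1 / (4 * K)) :=
    mul_le_mul_of_nonneg_left hxK (by positivity)
  have hn4 : x ^ 2 * D * (3 / 2 * x + η / x) = 3 / 2 * (x ^ 3 * D) + η * x * D := by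
    field_simp
  have hn6 : x ^ 2 * D * (1 / (4 * K)) = 2 * (x ^ 2 / (8 * K) * D) := by
    field_simp
    norm_num
  have hn7 : x ^ 2 / (2 * K) * D = 4 * (x ^ 2 / (8 * K) * D) := by
    field_simp
    norm_num
  have hn8 : 5 ≤ x ^ 2 / (8 * K) * D := by
    rw [div_le_iff₀ (by positivity)] at hDK
    have h2 : x ^ 2 / (8 * K) * D = x ^ 2 * D / (8 * K) := by ring
    rw [h2, le_div_iff₀ (by positivity)]
    linarith
  have hxx : x ^ 2 ≤ 1 / 4 := by nlinarith
  have hue : x * D * (1 / 2 * dg (X - u)) = u * dg (X - u) := by rw [hu]; ring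
  have hex : x * D * (-(1 / 2) * Real.log Real.pi + (2 * (x * D) - D) / (2 * K * D) +
      1 / 2 * dg (X - u) + (F.A1 x - F.A1 (1 - x))) =
      -(x * D / 2) * Real.log Real.pi + x * D * ((2 * (x * D) - D) / (2 * K * D)) +
      u * dg (X - u) + x * D * (F.A1 x - F.A1 (1 - x)) := by
    rw [← hue]
    ring
  rw [hex]
  linarith [hn1, hn2, hn3, hn4, hn6, hn7, hn8, hg4, hexp, hxx]

end Pool.Agent.Y509.DF
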