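import Mathlib
import Pool.Agent.TH41.LP.Stm
import Pool.Agent.TH41.LP.VV
import Pool.Agent.TH41.LP.VV2

/-!
The dual function is decreasing in the transition region and exponentially small beyond it.
-/

set_option autoImplicit false

open MeasureTheory Filter Topology

namespace Pool.Agent.Y509.DF

open Pool.Agent.TH41.LP Pool.Agent.TH41.LP.VVf

theorem WWZ (Y : ℂ → ℂ) {c : ℝ} (hc : c ≠ 0) (ρ : ℝ) :
    WW (fun s => s * Y s) c ρ = ∫ t : ℝ, Y (c + t * Complex.I) *
      Complex.exp (-(c + t * Complex.I) * ρ) := by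
  unfold WW
  apply integral_congr_ae
  refine Eventually.of_forall fun t => ?_
  simp only
  rw [mul_div_cancel_left₀ _ (line_ne hc)]

theorem line_integrable {Y : ℂ → ℂ} (hY : Continuous Y) {c ρ b M : ℝ} (hb : 0 < b)
    (h : ∀ t : ℝ, ‖Y (c + t * Complex.I)‖ ≤ M * Real.exp (-b * t ^ 2)) :
    Integrable (fun t : ℝ => Y (c + t * Complex.I) *
      Complex.exp (-(c + t * Complex.I) * ρ)) := by
  refine ((integrable_exp_neg_mul_sq hb).const_mul (M * Real.exp (-c * ρ))).mono' ?_ ?_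
  · apply Continuous.aestronglyMeasurable
    apply Continuous.mul
    · exact hY.comp (by fun_prop)
    · fun_prop
  · refine Eventually.of_forall fun t => ?_
    rw [norm_mul, exp_norm]
    calc _ ≤ M * Real.exp (-b * t ^ 2) * Real.exp (-c * ρ) :=
          mul_le_mul_of_nonneg_right (h t) (Real.exp_pos _).le
      _ = _ := by ring

theorem pos2 {Y : ℂ → ℂ} (hY : Continuous Y) {σ ρ V y0 : ℝ} (hσ : σ ≠ 0)
    (hV : 0 < V) (hy0 : 0 < y0)
    (h1 : ∀ t : ℝ, ‖Y (σ + t * Complex.I)‖ ≤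
      101 / 100 * y0 * Real.exp (-(49 / 100) * t ^ 2 / V))
    (h2 : ∀ t : ℝ, |t| ≤ 3 * √V → ∃ m θ : ℝ, |θ| ≤ 1 / 1000 ∧
      99 / 100 * Real.exp (-(51 / 100) * t ^ 2 / V) ≤ m ∧
      Y (σ + t * Complex.I) = (y0 : ℂ) * (m : ℂ) *
        Complex.exp (((ρ * t + θ : ℝ) : ℂ) * Complex.I)) :
    0 ≤ (WW (fun s => s * Y s) σ ρ).re := by
  have hsV : 0 < √V := Real.sqrt_pos.2 hV
  rw [WWZ Y hσ ρ]
  have hint := line_integrable hY (c := σ) (ρ := ρ) (b := (49 / 100) / V) (M := 101 / 100 * y0)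
    (by positivity) (fun t => by
      have := h1 t
      have e1 : -(49 / 100) * t ^ 2 / V = -((49 / 100) / V) * t ^ 2 := by ring
      rwa [e1] at this)
  set E := y0 * Real.exp (-σ * ρ) with hE
  have hE0 : 0 < E := by positivity
  have key : ∀ t : ℝ,
      E * ((Set.Icc (-√V) √V).indicator (fun _ => 58 / 100) t -
        101 / 100 * Real.exp (-(351 / 100)) * Real.exp (-(1 / 10 / V) * t ^ 2)) ≤
      (Y (σ + t * Complex.I) * Complex.exp (-(σ + t * Complex.I) * ρ)).re := by
    intro t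
    by_cases ht : |t| ≤ 3 * √V
    · obtain ⟨m, θ, hθ, hm, hYt⟩ := h2 t ht
      have hm0 : 0 ≤ m := le_trans (by positivity) hm
      have e1 : Y (σ + t * Complex.I) * Complex.exp (-(σ + t * Complex.I) * ρ) =
          ((E * m : ℝ) : ℂ) * Complex.exp ((θ : ℂ) * Complex.I) := by
        have h6 : Complex.exp (((ρ * t + θ : ℝ) : ℂ) * Complex.I) *
            Complex.exp (-(σ + t * Complex.I) * ρ) =
            ((Real.exp (-σ * ρ) : ℝ) : ℂ) * Complex.exp ((θ : ℂ) * Complex.I) := by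
          rw [Complex.ofReal_exp, ← Complex.exp_add, ← Complex.exp_add]
          congr 1
          push_cast
          ring
        rw [hYt, mul_assoc, h6, hE]
        push_cast
        ring
      rw [e1, Complex.re_ofReal_mul]
      have e2 : (Complex.exp ((θ : ℂ) * Complex.I)).re = Real.cos θ := by
        rw [Complex.exp_ofReal_mul_I_re]
      rw [e2]
      have hcos : 999 / 1000 ≤ Real.cos θ := by
        have := Real.one_sub_sq_div_two_le_cos (x := θ)
        have h8 : θ ^ 2 ≤ (1 / 1000) ^ 2 := by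
          rw [← sq_abs]
          exact pow_le_pow_left₀ (abs_nonneg _) hθ 2
        nlinarith
      have hterm : 0 ≤ E * (101 / 100 * Real.exp (-(351 / 100)) *
          Real.exp (-(1 / 10 / V) * t ^ 2)) := by positivity
      by_cases hin : t ∈ Set.Icc (-√V) √V
      · rw [Set.indicator_of_mem hin]
        have htV : |t| ≤ √V := abs_le.2 hin
        have h15 : t ^ 2 ≤ V := by
          have := pow_le_pow_left₀ (abs_nonneg _) htV 2
          rwa [sq_abs, Real.sq_sqrt hV.le] at this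
        have hm1 : 59 / 100 ≤ m := by
          refine le_trans ?_ hm
          have h16 : -(51 / 100) ≤ -(51 / 100) * t ^ 2 / V := by
            rw [le_div_iff₀ hV]
            nlinarith
          have h17 : Real.exp (-(51 / 100)) ≤ Real.exp (-(51 / 100) * t ^ 2 / V) :=
            Real.exp_le_exp.2 h16
          have h18 : (60 / 100 : ℝ) ≤ Real.exp (-(51 / 100)) := by
            rw [Real.exp_neg, le_inv_comm₀ (by norm_num) (Real.exp_pos _)]
            have h19 : Real.exp (51 / 100) ≤ 1666 / 1000 := by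
              have := Real.exp_bound' (x := 51 / 100) (by norm_num) (by norm_num) (n := 5)
                (by norm_num)
              refine this.trans ?_
              norm_num [Finset.sum_range_succ, Nat.factorial]
            refine h19.trans ?_
            norm_num
          nlinarith
        have h20 : 58 / 100 ≤ m * Real.cos θ := by nlinarith
        have h21 : E * (58 / 100) ≤ E * (m * Real.cos θ) :=
          mul_le_mul_of_nonneg_left h20 hE0.le
        linarith
      · rw [Set.indicator_of_notMem hin]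
        have : 0 ≤ E * m * Real.cos θ := mul_nonneg (by positivity) (by linarith)
        linarith
    · have ht' : 3 * √V < |t| := not_le.1 ht
      have hin : t ∉ Set.Icc (-√V) √V := by
        intro h
        have h3 : |t| ≤ √V := abs_le.2 h
        linarith
      rw [Set.indicator_of_notMem hin, zero_sub]
      have h3 := (abs_le.1 (Complex.abs_re_le_norm
        (Y (σ + t * Complex.I) * Complex.exp (-(σ + t * Complex.I) * ρ)))).1
      refine le_trans ?_ h3
      rw [norm_mul, exp_norm, mul_neg, neg_le_neg_iff]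
      have h4 : Real.exp (-(49 / 100) * t ^ 2 / V) ≤
          Real.exp (-(351 / 100)) * Real.exp (-(1 / 10 / V) * t ^ 2) := by
        rw [← Real.exp_add, Real.exp_le_exp]
        have h5 : 9 * V ≤ t ^ 2 := by
          have := pow_le_pow_left₀ (by positivity) ht'.le 2
          rw [sq_abs, mul_pow, Real.sq_sqrt hV.le] at this
          linarith
        have h6 : 9 ≤ t ^ 2 / V := by rwa [le_div_iff₀ hV]
        have h7 : -(49 / 100) * t ^ 2 / V = -(49 / 100) * (t ^ 2 / V) := by ring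
        have h8 : -(1 / 10 / V) * t ^ 2 = -(1 / 10) * (t ^ 2 / V) := by ring
        rw [h7, h8]
        linarith
      calc _ ≤ 101 / 100 * y0 * Real.exp (-(49 / 100) * t ^ 2 / V) * Real.exp (-σ * ρ) :=
            mul_le_mul_of_nonneg_right (h1 t) (Real.exp_pos _).le
        _ ≤ 101 / 100 * y0 * (Real.exp (-(351 / 100)) * Real.exp (-(1 / 10 / V) * t ^ 2)) *
            Real.exp (-σ * ρ) := by gcongr
        _ = _ := by rw [hE]; ring
  have hb : 0 < (1 / 10 : ℝ) / V := by positivity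
  have hgi : Integrable (fun t : ℝ => 101 / 100 * Real.exp (-(351 / 100)) *
      Real.exp (-(1 / 10 / V) * t ^ 2)) := (integrable_exp_neg_mul_sq hb).const_mul _
  have hii : Integrable (fun t : ℝ => (Set.Icc (-√V) √V).indicator (fun _ => (58 / 100 : ℝ)) t) := by
    rw [integrable_indicator_iff measurableSet_Icc]
    exact integrableOn_const (by simp)
  have hre : (∫ t : ℝ, Y (σ + t * Complex.I) * Complex.exp (-(σ + t * Complex.I) * ρ)).re =
      ∫ t : ℝ, (Y (σ + t * Complex.I) * Complex.exp (-(σ + t * Complex.I) * ρ)).re :=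
    (integral_re hint).symm
  rw [hre]
  refine le_trans ?_ (integral_mono ((hii.sub hgi).const_mul E) hint.re key)
  rw [integral_const_mul]
  apply mul_nonneg hE0.le
  have hsub := integral_sub hii hgi
  simp only [Pi.sub_apply] at hsub ⊢
  rw [hsub, integral_const_mul, gauss_int, integral_indicator measurableSet_Icc,
    setIntegral_const]
  have hvol : (volume.real (Set.Icc (-√V) √V)) = 2 * √V := by
    rw [Real.volume_real_Icc_of_le (by linarith)]
    ring
  rw [hvol, smul_eq_mul]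
  have hs := num_s hV
  have he := num_e
  have h3 : 101 / 100 * Real.exp (-(351 / 100)) * √(Real.pi / (1 / 10 / V)) ≤
      101 / 100 * (1 / 25) * (57 / 10 * √V) := by gcongr
  linarith

/-- the derivative in `ρ` -/
theorem WW_deriv {Y : ℂ → ℂ} (hY : Continuous Y) {c b M : ℝ} (hc : c ≠ 0) (hb : 0 < b)
    (h : ∀ t : ℝ, ‖Y (c + t * Complex.I)‖ ≤ M * Real.exp (-b * t ^ 2)) (ρ : ℝ) :
    HasDerivAt (fun ρ : ℝ => WW Y c ρ) (-WW (fun s => s * Y s) c ρ) ρ := by
  have hc' : 0 < |c| := abs_pos.2 hc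
  rw [WWZ Y hc ρ, ← integral_neg]
  have hbound : Integrable (fun t : ℝ => M * Real.exp (|c| * (|ρ| + 1)) * Real.exp (-b * t ^ 2)) :=
    (integrable_exp_neg_mul_sq hb).const_mul _
  have hmeas : ∀ x : ℝ, AEStronglyMeasurable (fun t : ℝ => Y (c + t * Complex.I) /
      (c + t * Complex.I) * Complex.exp (-(c + t * Complex.I) * x)) volume := by
    intro x
    apply Continuous.aestronglyMeasurable
    apply Continuous.mul
    · apply Continuous.div
      · exact hY.comp (by fun_prop)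
      · fun_prop
      · intro t
        exact line_ne hc
    · fun_prop
  have hint : Integrable (fun t : ℝ => Y (c + t * Complex.I) / (c + t * Complex.I) *
      Complex.exp (-(c + t * Complex.I) * ρ)) := by
    refine ((integrable_exp_neg_mul_sq hb).const_mul (M / |c| * Real.exp (-c * ρ))).mono'
      (hmeas ρ) ?_
    refine Eventually.of_forall fun t => ?_
    rw [norm_mul, norm_div, exp_norm]
    have h1 : ‖Y (c + t * Complex.I)‖ / ‖(c : ℂ) + t * Complex.I‖ ≤
        M * Real.exp (-b * t ^ 2) / |c| :=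
      div_le_div₀ (le_trans (norm_nonneg _) (h t)) (h t) hc' (line_norm c t)
    calc _ ≤ M * Real.exp (-b * t ^ 2) / |c| * Real.exp (-c * ρ) :=
          mul_le_mul_of_nonneg_right h1 (Real.exp_pos _).le
      _ = _ := by ring
  have key := hasDerivAt_integral_of_dominated_loc_of_deriv_le
    (μ := volume) (F := fun (x : ℝ) (t : ℝ) => Y (c + t * Complex.I) / (c + t * Complex.I) *
      Complex.exp (-(c + t * Complex.I) * x))
    (F' := fun (x : ℝ) (t : ℝ) => -(Y (c + t * Complex.I) * Complex.exp (-(c + t * Complex.I) * x)))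
    (x₀ := ρ) (s := Metric.ball ρ 1)
    (bound := fun t : ℝ => M * Real.exp (|c| * (|ρ| + 1)) * Real.exp (-b * t ^ 2))
    (Metric.ball_mem_nhds ρ one_pos) (Eventually.of_forall hmeas) hint ?_ ?_ hbound ?_
  · exact key.2
  · apply Continuous.aestronglyMeasurable
    apply Continuous.neg
    apply Continuous.mul
    · exact hY.comp (by fun_prop)
    · fun_prop
  · refine Eventually.of_forall fun t x hx => ?_
    rw [norm_neg, norm_mul, exp_norm]
    have hx2 : |x| ≤ |ρ| + 1 := by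
      rw [Metric.mem_ball, Real.dist_eq] at hx
      have := abs_sub_abs_le_abs_sub x ρ
      linarith
    have h3 : Real.exp (-c * x) ≤ Real.exp (|c| * (|ρ| + 1)) := by
      rw [Real.exp_le_exp]
      calc -c * x ≤ |(-c * x)| := le_abs_self _
        _ = |c| * |x| := by rw [abs_mul, abs_neg]
        _ ≤ _ := mul_le_mul_of_nonneg_left hx2 (abs_nonneg _)
    calc _ ≤ M * Real.exp (-b * t ^ 2) * Real.exp (|c| * (|ρ| + 1)) :=
          mul_le_mul (h t) h3 (Real.exp_pos _).le (le_trans (norm_nonneg _) (h t))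
      _ = _ := by ring
  · refine Eventually.of_forall fun t x _ => ?_
    have hne := line_ne (t := t) hc
    have h4 : HasDerivAt (fun x : ℝ => -((c : ℂ) + t * Complex.I) * (x : ℂ))
        (-((c : ℂ) + t * Complex.I) * 1) x :=
      (Complex.ofRealCLM.hasDerivAt (x := x)).const_mul _
    have h5 := (h4.cexp).const_mul (Y (c + t * Complex.I) / (c + t * Complex.I))
    refine h5.congr_deriv ?_
    field_simp

lemma anti1 {G G' : ℝ → ℝ} {a b : ℝ} (hG : ∀ ρ, HasDerivAt G (G' ρ) ρ) (hab : a ≤ b)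
    (h : ∀ ρ, a < ρ → ρ < b → G' ρ ≤ 0) : G b ≤ G a := by
  have hm : AntitoneOn G (Set.Icc a b) := by
    apply antitoneOn_of_deriv_nonpos (convex_Icc a b)
    · exact fun x _ => (hG x).continuousAt.continuousWithinAt
    · exact fun x _ => (hG x).differentiableAt.differentiableWithinAt
    · intro x hx
      rw [interior_Icc] at hx
      rw [(hG x).deriv]
      exact h x hx.1 hx.2
  exact hm ⟨le_rfl, hab⟩ ⟨hab, le_rfl⟩ hab

lemma anti2 {G G' : ℝ → ℝ} {a b p : ℝ} (hG : ∀ ρ, HasDerivAt G (G' ρ) ρ) (hab : a ≤ b)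
    (h : ∀ ρ, a < ρ → ρ < b → ρ ≠ p → G' ρ ≤ 0) : G b ≤ G a := by
  by_cases hp : a < p ∧ p < b
  · have h1 := anti1 hG hp.1.le (fun ρ h1 h2 => h ρ h1 (h2.trans hp.2) h2.ne)
    have h2 := anti1 hG hp.2.le (fun ρ h1 h2 => h ρ (hp.1.trans h1) h2 h1.ne')
    exact h2.trans h1
  · refine anti1 hG hab (fun ρ h1 h2 => h ρ h1 h2 ?_)
    rintro rfl
    exact hp ⟨h1, h2⟩

theorem core2 {K D A x₁ B b M c₁ : ℝ} (hK : 0 < K) (hD : 0 < D) (hA : 0 < A) (hx₁ : 0 < x₁)
    (hB : 0 < B) (hxB : x₁ * D ≤ B) (hDx : √(K * D) ≤ x₁ * D) (hb : 0 < b)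
    (Y : ℂ → ℂ) (al : ℝ → ℝ) (hY : Differentiable ℂ Y)
    (hpos : ∀ σ : ℝ, σ ≤ B → 0 < (Y σ).re ∧ (Y σ).im = 0)
    (hM : ∀ t : ℝ, ‖Y (B + t * Complex.I)‖ ≤ M * Real.exp (-b * t ^ 2))
    (hshift : ∀ ρ c : ℝ, 0 < c → c ≤ B → WW Y c ρ = WW Y B ρ)
    (hshiftZ : ∀ ρ c : ℝ, -A ≤ c → c ≤ B → c ≠ 0 →
      WW (fun s => s * Y s) c ρ = WW (fun s => s * Y s) B ρ)
    (h1 : ∀ σ : ℝ, -A ≤ σ → σ ≤ x₁ * D → σ ≠ 0 → ∀ t : ℝ, ‖Y (σ + t * Complex.I)‖ ≤
        101 / 100 * ‖Y σ‖ * Real.exp (-(49 / 100) * t ^ 2 / (K * D)))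
    (h2 : ∀ σ : ℝ, -A ≤ σ → σ ≤ x₁ * D → σ ≠ 0 → ∀ t : ℝ, |t| ≤ 3 * √(K * D) →
      ∃ m θ : ℝ, |θ| ≤ 1 / 1000 ∧
        99 / 100 * Real.exp (-(51 / 100) * t ^ 2 / (K * D)) ≤ m ∧
        Y (σ + t * Complex.I) =
          Y σ * (m : ℂ) * Complex.exp (((al σ * t + θ : ℝ) : ℂ) * Complex.I))
    (h3 : ContinuousOn al (Set.Icc (-A) (x₁ * D)))
    (h4 : ‖Y ((x₁ * D : ℝ) : ℂ)‖ ≤ Real.exp (x₁ * D * al (x₁ * D) - c₁ * D)) :
    ∀ ρ : ℝ, al (-A) ≤ ρ → -Real.exp (-(c₁ * D)) ≤ (WW Y B ρ / (2 * Real.pi)).re := by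
  have hV : 0 < K * D := by positivity
  have hx1D : 0 < x₁ * D := by positivity
  have hpi : (3.14 : ℝ) < Real.pi := Real.pi_gt_d2
  have hpi0 : 0 < Real.pi := Real.pi_pos
  have hdiv : ∀ z : ℂ, (z / (2 * Real.pi)).re = z.re / (2 * Real.pi) := by
    intro z
    have : z / (2 * (Real.pi : ℂ)) = z / (((2 * Real.pi : ℝ)) : ℂ) := by push_cast; rfl
    rw [this, Complex.div_ofReal_re]
  have hder : ∀ ρ, HasDerivAt (fun ρ : ℝ => (WW Y B ρ).re)
      (-(WW (fun s => s * Y s) B ρ).re) ρ := by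
    intro ρ
    have h5 := WW_deriv hY.continuous hB.ne' hb hM ρ
    exact (Complex.reCLM.hasFDerivAt.comp_hasDerivAt ρ h5)
  -- the far region
  have hfar : ∀ ρ : ℝ, al (x₁ * D) ≤ ρ → -(2 * Real.pi * Real.exp (-(c₁ * D))) ≤ (WW Y B ρ).re := by
    intro ρ hρ
    have h6 := (abs_le.1 (Complex.abs_re_le_norm (WW Y B ρ))).1
    refine le_trans (neg_le_neg ?_) h6
    rw [← hshift ρ (x₁ * D) hx1D hxB]
    have h7 := WW_bound (ρ := ρ) (c := x₁ * D) hx1D.ne' hV (norm_nonneg _)
      (h1 (x₁ * D) (by linarith) le_rfl hx1D.ne')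
    rw [abs_of_pos hx1D] at h7
    refine h7.trans ?_
    have h8 : ‖Y ((x₁ * D : ℝ) : ℂ)‖ * Real.exp (-(x₁ * D) * ρ) ≤ Real.exp (-(c₁ * D)) := by
      calc _ ≤ Real.exp (x₁ * D * al (x₁ * D) - c₁ * D) * Real.exp (-(x₁ * D) * al (x₁ * D)) := by
            apply mul_le_mul h4 _ (Real.exp_pos _).le (Real.exp_pos _).le
            rw [Real.exp_le_exp]
            nlinarith
        _ = Real.exp (-(c₁ * D)) := by
            rw [← Real.exp_add]
            congr 1
            ring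
    have h9 := num_pi_sqrt hV
    have h10 : √(K * D) / (x₁ * D) ≤ 1 := by rwa [div_le_one hx1D]
    calc _ = 101 / 100 * (‖Y ((x₁ * D : ℝ) : ℂ)‖ * Real.exp (-(x₁ * D) * ρ)) /
          (x₁ * D) * √(Real.pi / ((49 / 100) / (K * D))) := by ring
      _ ≤ 101 / 100 * Real.exp (-(c₁ * D)) / (x₁ * D) * (2533 / 1000 * √(K * D)) := by gcongr
      _ = 101 / 100 * (2533 / 1000) * Real.exp (-(c₁ * D)) * (√(K * D) / (x₁ * D)) := by ring
      _ ≤ 101 / 100 * (2533 / 1000) * Real.exp (-(c₁ * D)) * 1 := by gcongr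
      _ ≤ 2 * Real.pi * Real.exp (-(c₁ * D)) := by
          have := Real.exp_pos (-(c₁ * D))
          nlinarith
  intro ρ hρ
  rw [hdiv, le_div_iff₀ (by positivity)]
  have hgoal : -(2 * Real.pi * Real.exp (-(c₁ * D))) ≤ (WW Y B ρ).re := by
    rcases le_total (al (x₁ * D)) ρ with h | h
    · exact hfar ρ h
    · refine (hfar (al (x₁ * D)) le_rfl).trans ?_
      refine anti2 (p := al 0) hder h (fun ρ' hρ1 hρ2 hρ3 => ?_)
      obtain ⟨σ, hσ, hσρ⟩ := intermediate_value_Icc (show -A ≤ x₁ * D by linarith) h3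
        ⟨(hρ.trans hρ1.le), hρ2.le⟩
      have hσ0 : σ ≠ 0 := by
        rintro rfl
        exact hρ3 hσρ.symm
      have hp := hpos σ (hσ.2.trans hxB)
      have hYσ : Y σ = (((Y σ).re : ℝ) : ℂ) := by
        apply Complex.ext
        · simp
        · simp [hp.2]
      have hYn : ‖Y σ‖ = (Y σ).re := by
        rw [hYσ, Complex.norm_real, Real.norm_of_nonneg (by simpa using hp.1.le)]
        simp
      have h9 : 0 ≤ (WW (fun s => s * Y s) σ ρ').re := by
        refine pos2 hY.continuous (V := K * D) (y0 := (Y σ).re) hσ0 hV hp.1 ?_ ?_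
        · intro t
          have := h1 σ hσ.1 hσ.2 hσ0 t
          rwa [hYn] at this
        · intro t ht
          obtain ⟨m, θ, hθ, hm, he⟩ := h2 σ hσ.1 hσ.2 hσ0 t ht
          refine ⟨m, θ, hθ, hm, ?_⟩
          rw [he, hσρ]
          congr 2
      rw [hshiftZ ρ' σ hσ.1 (hσ.2.trans hxB) hσ0] at h9
      linarith
  linarith

end Pool.Agent.Y509.DF
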