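import Mathlib
import Pool.Agent.TH41.LP.ASM
import Pool.Agent.Y509.DF.G1
import Pool.Agent.Y509.DF.G2
import Pool.Agent.Y509.DF.G3
import Pool.Agent.Y509.DF.G4

/-!
The dual function of the linear programming bound, with an exponentially small overshoot.
-/

set_option autoImplicit false

open MeasureTheory Filter Topology

open scoped FourierTransform

namespace Pool.Agent.Y509.DF

open Pool.Agent.TH41.LP Pool.Agent.TH41.LP.VVf

theorem pot_mono {η η' C : ℝ} {F : Fam} (h : Pot η C F) (hη : η ≤ η') : Pot η' C F := by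
  refine ⟨fun x hx τ => (h.p1 x hx τ).trans ?_, fun x hx hx2 τ => (h.p2 x hx hx2 τ).trans ?_,
    fun x hx hxC => (h.p3 x hx hxC).trans hη, fun u hu hu2 x y hx hy =>
      (h.p4 u hu hu2 x y hx hy).trans (by linarith)⟩
  · exact mul_le_mul_of_nonneg_right hη (sq_nonneg τ)
  · exact mul_le_mul_of_nonneg_right (by linarith) (sq_nonneg τ)

theorem alpha_cont (h : ContinuousOn dg (Set.Ioi 0)) (F : Fam) {D K a b : ℝ} (hD : 0 < D)
    (hb : b < D) : ContinuousOn (alpha F D K) (Set.Icc a b) := by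
  unfold alpha
  apply ContinuousOn.add
  · apply ContinuousOn.add
    · apply Continuous.continuousOn
      fun_prop
    · apply ContinuousOn.mul continuousOn_const
      apply ContinuousOn.comp (t := Set.Ioi 0) h
      · apply Continuous.continuousOn
        fun_prop
      · intro σ hσ
        have := hσ.2
        simp only [Set.mem_Ioi]
        linarith
  · apply Continuous.continuousOn
    apply continuous_finsetSum
    intro i _
    have hc : 0 < F.c i * D := mul_pos (F.c_pos i) hD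
    have key : ∀ x : ℝ, √(x ^ 2 + (F.c i * D) ^ 2) ≠ 0 := by
      intro x
      have : 0 < x ^ 2 + (F.c i * D) ^ 2 := by positivity
      exact (Real.sqrt_pos.mpr this).ne'
    apply Continuous.mul continuous_const
    apply Continuous.sub
    · apply Continuous.div continuous_id (by fun_prop)
      intro x; exact key x
    · apply Continuous.div (by fun_prop) (by fun_prop)
      intro x; exact key _

/-- the shift for `s * Y s` -/
theorem shiftZ (hs : S_shift) {Y : ℂ → ℂ} {A B M b : ℝ} (hA : 0 < A) (hB : 0 < B) (hb : 0 < b)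
    (hY : Differentiable ℂ Y)
    (hM : ∀ s : ℂ, -A ≤ s.re → s.re ≤ B → ‖Y s‖ ≤ M * Real.exp (-b * s.im ^ 2)) :
    ∀ ρ c : ℝ, -A ≤ c → c ≤ B → c ≠ 0 →
      WW (fun s => s * Y s) c ρ = WW (fun s => s * Y s) B ρ := by
  intro ρ c hc1 hc2 hc3
  have hM0 : 0 ≤ M := by
    have h1 := hM 0 (by simpa using hA.le) (by simpa using hB.le)
    have h2 : 0 ≤ M * Real.exp (-b * (0 : ℂ).im ^ 2) := le_trans (norm_nonneg _) h1
    simpa using h2
  have key := hs (fun s => s * Y s) A B (M * (A + B + 1 + 2 / b)) (b / 2) hA hB (by positivity)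
    (differentiable_id.mul hY) (fun s h1 h2 => by
      rw [norm_mul]
      have h3 := hM s h1 h2
      have h4 : ‖s‖ ≤ (A + B + 1 + 2 / b) * Real.exp (b / 2 * s.im ^ 2) := by
        have h5 := Complex.norm_le_abs_re_add_abs_im s
        have h6 : |s.re| ≤ A + B := abs_le.2 ⟨by linarith, by linarith⟩
        have h7 : |s.im| ≤ 1 + s.im ^ 2 := by
          rw [← sq_abs s.im]
          nlinarith [abs_nonneg s.im, sq_nonneg (|s.im| - 1)]
        have h8 : 1 + b / 2 * s.im ^ 2 ≤ Real.exp (b / 2 * s.im ^ 2) := by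
          have := Real.add_one_le_exp (b / 2 * s.im ^ 2)
          linarith
        have h9 : A + B + (1 + s.im ^ 2) ≤ (A + B + 1 + 2 / b) * (1 + b / 2 * s.im ^ 2) := by
          have e : (A + B + 1 + 2 / b) * (1 + b / 2 * s.im ^ 2) =
              (A + B + 1 + 2 / b) + (A + B + 1) * (b / 2 * s.im ^ 2) + s.im ^ 2 := by
            field_simp
            ring
          rw [e]
          have : 0 ≤ (A + B + 1) * (b / 2 * s.im ^ 2) := by positivity
          have : 0 < 2 / b := by positivity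
          linarith
        calc ‖s‖ ≤ A + B + (1 + s.im ^ 2) := by linarith
          _ ≤ (A + B + 1 + 2 / b) * (1 + b / 2 * s.im ^ 2) := h9
          _ ≤ _ := mul_le_mul_of_nonneg_left h8 (by positivity)
      calc ‖s‖ * ‖Y s‖ ≤ (A + B + 1 + 2 / b) * Real.exp (b / 2 * s.im ^ 2) *
            (M * Real.exp (-b * s.im ^ 2)) :=
            mul_le_mul h4 h3 (norm_nonneg _) (by positivity)
        _ = M * (A + B + 1 + 2 / b) * (Real.exp (b / 2 * s.im ^ 2) * Real.exp (-b * s.im ^ 2)) := by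
            ring
        _ = _ := by
            rw [← Real.exp_add]
            congr 2
            ring)
  rcases lt_or_gt_of_ne hc3 with h | h
  · have := (key ρ).2 c hc1 h
    simp only [zero_mul, mul_zero] at this
    exact (sub_eq_zero.1 this).symm
  · exact (key ρ).1 c h hc2

/-- the dual function with an exponentially small overshoot -/
def S_vx : Prop := ∀ ε : ℝ, 0 < ε → ε ≤ 1 → ∃ c : ℝ, ε ^ 6 / 4000000000 ≤ c ∧
    ∃ d0 : ℕ, ∀ d : ℕ, d0 ≤ d →
  ∃ v : EuclideanSpace ℝ (Fin d) → ℝ, AEStronglyMeasurable v volume ∧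
    (∀ f : EuclideanSpace ℝ (Fin d) → ℂ, Continuous f → Integrable f → Integrable (𝓕 f) →
      (∀ x, (f x).im = 0) → (∀ x, (𝓕 f x).im = 0) →
      ∫ x, (𝓕 f x).re * v x = ∫ x, (f x).re * v x) ∧
    (∀ x, x ≠ 0 → -Real.exp (-(c * d)) ≤ v x) ∧
    (∀ x, x ≠ 0 → √d / Real.pi * Real.exp (-ε) ≤ ‖x‖ → v x ≤ 1) ∧
    (∀ x, x ≠ 0 → ‖x‖ ≤ √d / Real.pi * Real.exp (-ε) → |1 - v x| ≤ Real.exp (-(d : ℝ)))

theorem vx : S_vx := by
  have hpot := ASMf.pot
  have hshift := SHIFTf.shift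
  have hdual := DUALf.dual
  have hyb := YBf.yb_of ASMf.ee GAMf.gam
  have hyp := ASMf.yp
  have hks := KSf.ks_of ASMf.ee
  have h1 := C1f.c1_of ASMf.ee PPf.pp_props GAMf.gam ASMf.yp
  have h2 := C2f.c2_of ASMf.ee PPf.pp_props GAMf.gam GPHf.gph ASMf.yp
  have h3 := C3f.c3_of ASMf.gre.1
  have h4 := C4f.c4_of ASMf.gre.2.1
  have h5 := C5f.c5_of ASMf.ee ASMf.yp ASMf.gre.2.2.2.2
  have h6 := C6f.c6_of ASMf.ee ASMf.yp ASMf.gre
  intro ε hε hε1
  obtain ⟨C, hC⟩ : ∃ C : ℝ, C = 8 / ε := ⟨_, rfl⟩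
  obtain ⟨K, hK⟩ : ∃ K : ℝ, K = 16 / (3 * ε ^ 2) := ⟨_, rfl⟩
  obtain ⟨η, hη⟩ : ∃ η : ℝ, η = 3 * ε ^ 2 / 6400 := ⟨_, rfl⟩
  obtain ⟨x₁, hx₁⟩ : ∃ x : ℝ, x = 1 / (1600 * K) := ⟨_, rfl⟩
  have hC0 : 0 < C := by rw [hC]; positivity
  have hK0 : 0 < K := by rw [hK]; positivity
  have hK1 : 1 ≤ K := by
    rw [hK, le_div_iff₀ (by positivity)]
    nlinarith
  have hη0 : 0 < η := by rw [hη]; positivity
  have hx0 : 0 < x₁ := by rw [hx₁]; positivity
  have hxK : x₁ * K = 1 / 1600 := by rw [hx₁]; field_simp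
  have hx2 : x₁ ≤ 1 / 1600 := by nlinarith
  have hC8 : 8 ≤ C := by
    rw [hC, le_div_iff₀ hε]
    linarith
  have hKη : K * η ≤ 1 / 400 := by
    rw [hK, hη]
    apply le_of_eq
    field_simp
    norm_num
  obtain ⟨η', hη'⟩ : ∃ e : ℝ, e = min η (x₁ / (8 * K)) := ⟨_, rfl⟩
  have hη'0 : 0 < η' := by rw [hη']; positivity
  have hη'η : η' ≤ η := by rw [hη']; exact min_le_left _ _
  have hη'x : η' ≤ x₁ / (8 * K) := by rw [hη']; exact min_le_right _ _
  have hKη' : K * η' ≤ 1 / 400 := (mul_le_mul_of_nonneg_left hη'η hK0.le).trans hKη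
  obtain ⟨F, hF'⟩ := hpot η' C hη'0 hC0
  have hF := pot_mono hF' hη'η
  obtain ⟨D1, hD1, h1'⟩ := h1 K C η hK0 hC0 hη0 hKη F hF
  obtain ⟨D2, hD2, h2'⟩ := h2 K C η hK0 hC0 hη0 hKη F hF
  obtain ⟨D4, hD4, h4'⟩ := h4 K C η hK0 hC0 hη0 F hF
  obtain ⟨D5, hD5, h5'⟩ := h5 K C η hK0 hC0 hη0 F hF
  obtain ⟨D6, hD6, h6'⟩ := h6 K C η hK0 hC0 hη0 hKη F hF
  obtain ⟨E1, hE1, k1⟩ := c1x ASMf.ee PPf.pp_props GAMf.gam hK0 hKη' F hF'
  obtain ⟨E2, hE2, k2⟩ := c2x ASMf.ee PPf.pp_props GAMf.gam GPHf.gph hK0 hη'0.le hKη' F hF'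
  have hzK : 3 / 2 * x₁ + η' / x₁ ≤ 1 / (4 * K) := by
    have e1 : η' / x₁ ≤ 1 / (8 * K) := by
      rw [div_le_iff₀ hx0]
      calc η' ≤ x₁ / (8 * K) := hη'x
        _ = _ := by ring
    have e2 : 3 / 2 * x₁ ≤ 1 / (8 * K) := by
      rw [hx₁, ← mul_one_div_cancel (show (1600 : ℝ) ≠ 0 by norm_num)]
      rw [le_div_iff₀ (by positivity)]
      have e3 : 3 / 2 * (1600 * (1 / 1600) / (1600 * K)) * (8 * K) = 12 / 1600 := by
        field_simp
        norm_num
      rw [e3]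
      norm_num
    have e4 : 1 / (4 * K) = 1 / (8 * K) + 1 / (8 * K) := by
      field_simp
      norm_num
    linarith
  obtain ⟨E3, hE3, k3⟩ := zz ASMf.ee ASMf.gre (x := x₁) hK0 F hF' hx0 (by linarith) (by linarith)
    hzK
  have hcc : ε ^ 6 / 4000000000 ≤ x₁ ^ 2 / (8 * K) := by
    have e1 : x₁ ^ 2 / (8 * K) = 27 * ε ^ 6 / 83886080000 := by
      rw [hx₁, hK]
      field_simp
      norm_num
    rw [e1]
    have e2 : 0 < ε ^ 6 := by positivity
    linarith
  refine ⟨x₁ ^ 2 / (8 * K), hcc, ?_⟩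
  obtain ⟨d0, hd0⟩ := exists_nat_ge (D1 + D2 + D4 + D5 + D6 + 4 * K + 1 + E1 + E2 + E3 + K / x₁ ^ 2)
  refine ⟨d0, fun d hd => ?_⟩
  have hKx0 : 0 < K / x₁ ^ 2 := by positivity
  have hdr : D1 + D2 + D4 + D5 + D6 + 4 * K + 1 + E1 + E2 + E3 + K / x₁ ^ 2 ≤ (d : ℝ) := by
    refine hd0.trans ?_
    exact_mod_cast hd
  have hd1 : (1 : ℝ) ≤ (d : ℝ) := by linarith
  have hdpos : 0 < d := by
    have : (0 : ℝ) < (d : ℝ) := by linarith
    exact_mod_cast this
  have hd' : (0 : ℝ) < (d : ℝ) := by linarith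
  have hDK : 9 / 10 * √(K * d) ≤ (d : ℝ) / 2 := by
    have h7 : √(K * d) ≤ (d : ℝ) / 2 := by
      rw [Real.sqrt_le_left (by positivity)]
      nlinarith
    linarith
  obtain ⟨hYd, hY0, hYpos⟩ := hyp F d K hd' hK0
  have hb : 0 < 1 / (4 * K * (d : ℝ)) := by positivity
  obtain ⟨M0, hM0⟩ := hyb F d K (C * d) hd' hK0 (by positivity)
  have hsh := hshift (YY F d K) (C * d) (d / 2) M0 (1 / (4 * K * (d : ℝ))) (by positivity)
    (by positivity) hb hYd hM0
  have h4d := h4' d (by linarith)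
  have hcore := core hε hε1 hC hK hη hd1 hDK (YY F d K) (alpha F d K) hYd hY0 hYpos hsh
    (h1' d (by linarith)).1 (h1' d (by linarith)).2 (h2' d (by linarith))
    (h3 F d K hd' hK0) h4d (h5' d (by linarith)) (h6' d (by linarith))
  obtain ⟨⟨M, hM⟩, hA, hB⟩ := hcore
  have hratio : ∀ σ : ℝ, σ ≤ x₁ * d → σ / d ≤ x₁ := fun σ hσ => by
    rw [div_le_iff₀ hd']
    exact hσ
  have hDx : √(K * d) ≤ x₁ * d := by
    rw [Real.sqrt_le_left (by positivity)]
    have : K / x₁ ^ 2 ≤ (d : ℝ) := by linarith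
    rw [div_le_iff₀ (by positivity)] at this
    nlinarith
  have hcore2 := core2 (K := K) (D := d) (A := C * d) (x₁ := x₁) (B := (d : ℝ) / 2)
    (b := 1 / (4 * K * (d : ℝ))) (M := M0) (c₁ := x₁ ^ 2 / (8 * K)) hK0 hd' (by positivity) hx0
    (by positivity) (by nlinarith) hDx hb (YY F d K) (alpha F d K) hYd
    (fun σ hσ => hYpos σ (by linarith))
    (fun t => by
      have := hM0 (((d : ℝ) / 2 : ℝ) + t * Complex.I) (by
        simp
        have : 0 ≤ C * (d : ℝ) := by positivity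
        linarith) (by simp)
      have e4 : (((((d : ℝ) / 2 : ℝ) : ℂ) + t * Complex.I)).im = t := by simp
      rwa [e4] at this)
    (fun ρ c hc1 hc2 => by
      have := (hsh ρ).1 c hc1 hc2
      rw [this])
    (shiftZ hshift (by positivity) (by positivity) hb hYd hM0)
    (fun σ _ hσ2 hσ0 t => k1 d (by linarith) σ hσ0 (by linarith [hratio σ hσ2])
      (by nlinarith [hratio σ hσ2]) t)
    (fun σ _ hσ2 hσ0 t ht => k2 d (by linarith) σ hσ0 (by linarith [hratio σ hσ2])
      (by nlinarith [hratio σ hσ2]) t ht)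
    (alpha_cont ASMf.gre.1 F hd' (by nlinarith))
    (k3 d (by linarith))
  obtain ⟨hks1, hks2, hks3⟩ := hks F d K hd' hK0
  have hks2' : ∀ s : ℂ, KK F d K (d - s) = KK F d K s := by
    intro s
    have := hks2 s
    rwa [Complex.ofReal_natCast] at this
  obtain ⟨hmeas, hdu⟩ := hdual d hdpos (KK F d K) hks1 hks2' (ks_int hks hyp hyb hdpos hK0)
  have hpi0 : 0 < Real.pi := Real.pi_pos
  have hn : ‖(2 * (Real.pi : ℂ))‖ = 2 * Real.pi := by
    rw [norm_mul, Complex.norm_real, Real.norm_of_nonneg hpi0.le]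
    norm_num
  have hvb : ∀ x : EuclideanSpace ℝ (Fin d), ‖vK d (KK F d K) x‖ ≤ M / (2 * Real.pi) := by
    intro x
    rw [vK_eq hks hdpos hK0 x, norm_div, hn]
    exact div_le_div_of_nonneg_right (hM _) (by positivity)
  have hlog : Real.log (√(d : ℝ) / Real.pi * Real.exp (-ε)) =
      1 / 2 * Real.log d - Real.log Real.pi - ε := by
    have hs : 0 < √(d : ℝ) := Real.sqrt_pos.2 hd'
    rw [Real.log_mul (by positivity) (Real.exp_pos _).ne', Real.log_exp,
      Real.log_div hs.ne' hpi0.ne', Real.log_sqrt hd'.le]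
    ring
  have hpos' : 0 < √(d : ℝ) / Real.pi * Real.exp (-ε) := by
    have hs : 0 < √(d : ℝ) := Real.sqrt_pos.2 hd'
    positivity
  have hin : ∀ x : EuclideanSpace ℝ (Fin d), x ≠ 0 → ‖x‖ ≤ √d / Real.pi * Real.exp (-ε) →
      |1 - (vK d (KK F d K) x).re| ≤ Real.exp (-(d : ℝ)) := by
    intro x hx hxn
    have h7 : ‖1 - vK d (KK F d K) x‖ ≤ Real.exp (-(d : ℝ)) := by
      rw [vK_eq hks hdpos hK0 x]
      apply hA
      rw [← hlog]
      exact Real.log_le_log (norm_pos_iff.2 hx) hxn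
    refine le_trans ?_ h7
    have h8 : 1 - (vK d (KK F d K) x).re = (1 - vK d (KK F d K) x).re := by simp
    rw [h8]
    exact Complex.abs_re_le_norm _
  refine ⟨fun x => (vK d (KK F d K) x).re, ?_, ?_, ?_, ?_, ?_⟩
  · exact Complex.continuous_re.comp_aestronglyMeasurable hmeas
  · intro f hfc hfi hFfi hf1 hf2
    have h7 := hdu f hfc hfi hFfi
    have hint : ∀ g : EuclideanSpace ℝ (Fin d) → ℂ, Integrable g → (∀ x, (g x).im = 0) →
        ∫ x, (g x).re * (vK d (KK F d K) x).re = (∫ x, g x * vK d (KK F d K) x).re := by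
      intro g hg hgi
      have h8 : Integrable (fun x => g x * vK d (KK F d K) x) := by
        have h9 : Integrable (fun x => vK d (KK F d K) x * g x) :=
          hg.bdd_mul hmeas (Eventually.of_forall hvb)
        refine h9.congr (Eventually.of_forall fun x => ?_)
        simp only
        ring
      have h10 : (∫ x, g x * vK d (KK F d K) x).re = ∫ x, (g x * vK d (KK F d K) x).re :=
        (integral_re h8).symm
      rw [h10]
      congr 1
      funext x
      rw [Complex.mul_re, hgi x]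
      ring
    rw [hint _ hFfi hf2, hint _ hfi hf1, h7]
  · intro x hx
    rcases le_total ‖x‖ (√d / Real.pi * Real.exp (-ε)) with h | h
    · have h7 := (abs_le.1 (hin x hx h)).2
      have h8 : Real.exp (-(d : ℝ)) ≤ 1 := Real.exp_le_one_iff.2 (by linarith)
      have h9 := Real.exp_pos (-(x₁ ^ 2 / (8 * K) * d))
      simp only
      linarith
    · simp only
      rw [vK_eq hks hdpos hK0 x]
      apply hcore2
      refine h4d.trans (le_trans ?_ (Real.log_le_log hpos' h))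
      rw [hlog]
      have e4 : C / K - 2 * η = 3 / 2 * ε - 3 / 3200 * ε ^ 2 := by
        rw [hC, hK, hη]
        field_simp
        ring
      nlinarith
  · intro x hx hxn
    simp only
    rw [vK_eq hks hdpos hK0 x]
    apply hB
    rw [← hlog]
    exact Real.log_le_log hpos' hxn
  · exact hin

end Pool.Agent.Y509.DF
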